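import Pool.Agent.R794.Co.Grp

/-!
Root subgroups from finitely many relations (Baumslag's argument).
-/

namespace Pool.Agent.R794.Co

section

variable {G : Type*} [Group G] {px py g : G}

def cj (px py g : G) (m n : ℤ) : G := px ^ m * py ^ n * g * (px ^ m * py ^ n)⁻¹

theorem cj_rel (hpp : Commute px py) (hgy : py * g * py⁻¹ = g * (px * g * px⁻¹)) (m n : ℤ) :
    cj px py g m (n + 1) = cj px py g m n * cj px py g (m + 1) n := by
  have h1 : cj px py g m (n + 1) = px ^ m * py ^ n * (py * g * py⁻¹) * (px ^ m * py ^ n)⁻¹ := by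
    simp only [cj, zpow_add_one]; group
  have h2 : cj px py g (m + 1) n = px ^ m * py ^ n * (px * g * px⁻¹) * (px ^ m * py ^ n)⁻¹ := by
    have : px ^ (m + 1) * py ^ n = px ^ m * py ^ n * px := by
      rw [zpow_add_one, mul_assoc, mul_assoc, ((hpp.zpow_right n)).eq]
    simp only [cj, this]; group
  rw [h1, h2, hgy, cj]; group

theorem comm_nat (hpp : Commute px py) (hgx : Commute g (px * g * px⁻¹))
    (hgy : py * g * py⁻¹ = g * (px * g * px⁻¹)) (n : ℕ) :
    Commute g (px ^ (n : ℤ) * g * (px ^ (n : ℤ))⁻¹) := by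
  have shift : ∀ (k i : ℤ), Commute g (px ^ i * g * (px ^ i)⁻¹) →
      Commute (px ^ k * g * (px ^ k)⁻¹) (px ^ (k + i) * g * (px ^ (k + i))⁻¹) := by
    intro k i h
    have h1 := h.map (MulAut.conj (px ^ k)).toMonoidHom
    simp only [MulEquiv.toMonoidHom_eq_coe, MonoidHom.coe_coe, MulAut.conj_apply] at h1
    have h2 : px ^ (k + i) * g * (px ^ (k + i))⁻¹ =
      px ^ k * (px ^ i * g * (px ^ i)⁻¹) * (px ^ k)⁻¹ := by rw [zpow_add]; group
    rw [h2]; exact h1
  induction n using Nat.strong_induction_on with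
  | _ n ih =>
    match n with
    | 0 => simp
    | 1 => simpa using hgx
    | (n + 2) =>
      have h1 : Commute g (px ^ ((n + 1 : ℕ) : ℤ) * g * (px ^ ((n + 1 : ℕ) : ℤ))⁻¹) :=
        ih (n + 1) (by omega)
      have h0 : Commute g (px ^ ((n : ℕ) : ℤ) * g * (px ^ ((n : ℕ) : ℤ))⁻¹) := ih n (by omega)
      have e1 := shift 1 _ h1
      have e0 := shift 1 _ h0
      have e2 := h1.map (MulAut.conj py).toMonoidHom
      simp only [MulEquiv.toMonoidHom_eq_coe, MonoidHom.coe_coe, MulAut.conj_apply] at e2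
      have h3 : py * (px ^ ((n + 1 : ℕ) : ℤ) * g * (px ^ ((n + 1 : ℕ) : ℤ))⁻¹) * py⁻¹ =
          (px ^ (1 + (n : ℤ)) * g * (px ^ (1 + (n : ℤ)))⁻¹) *
            (px ^ (1 + ((n + 1 : ℕ) : ℤ)) * g * (px ^ (1 + ((n + 1 : ℕ) : ℤ)))⁻¹) := by
        have a1 : py * px ^ ((n + 1 : ℕ) : ℤ) = px ^ ((n + 1 : ℕ) : ℤ) * py :=
          (hpp.symm.zpow_right _).eq
        calc py * (px ^ ((n + 1 : ℕ) : ℤ) * g * (px ^ ((n + 1 : ℕ) : ℤ))⁻¹) * py⁻¹
            = (py * px ^ ((n + 1 : ℕ) : ℤ)) * g * (py * px ^ ((n + 1 : ℕ) : ℤ))⁻¹ := by group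
          _ = px ^ ((n + 1 : ℕ) : ℤ) * (py * g * py⁻¹) * (px ^ ((n + 1 : ℕ) : ℤ))⁻¹ := by
              rw [a1]; group
          _ = px ^ ((n + 1 : ℕ) : ℤ) * (g * (px * g * px⁻¹)) * (px ^ ((n + 1 : ℕ) : ℤ))⁻¹ := by
              rw [hgy]
          _ = _ := by
              have b1 : px ^ (1 + (n : ℤ)) = px ^ ((n + 1 : ℕ) : ℤ) := by
                congr 1; push_cast; ring
              have b2 : px ^ (1 + ((n + 1 : ℕ) : ℤ)) = px ^ ((n + 1 : ℕ) : ℤ) * px := by
                rw [add_comm, zpow_add_one]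
              rw [b1, b2]; group
      rw [h3, hgy] at e2
      simp only [zpow_one] at e1 e0
      -- e2 : Commute (g * G1) (G_{n+1} * G_{n+2}); e0, e1 : Commute G1 _
      have e3 : Commute (px * g * px⁻¹) ((px ^ (1 + (n : ℤ)) * g * (px ^ (1 + (n : ℤ)))⁻¹) *
            (px ^ (1 + ((n + 1 : ℕ) : ℤ)) * g * (px ^ (1 + ((n + 1 : ℕ) : ℤ)))⁻¹)) :=
        e0.mul_right e1
      have e4 := e2.mul_left e3.inv_left
      rw [mul_inv_cancel_right] at e4
      have b1 : px ^ (1 + (n : ℤ)) = px ^ ((n + 1 : ℕ) : ℤ) := by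
        congr 1; push_cast; ring
      rw [b1] at e4
      have e5 := h1.inv_right.mul_right e4
      rw [inv_mul_cancel_left] at e5
      have b2 : (1 + ((n + 1 : ℕ) : ℤ)) = ((n + 2 : ℕ) : ℤ) := by push_cast; ring
      rw [b2] at e5
      exact e5

theorem comm_int (hpp : Commute px py) (hgx : Commute g (px * g * px⁻¹))
    (hgy : py * g * py⁻¹ = g * (px * g * px⁻¹)) (i j : ℤ) :
    Commute (px ^ i * g * (px ^ i)⁻¹) (px ^ j * g * (px ^ j)⁻¹) := by
  have key : ∀ (i j : ℤ), i ≤ j →
      Commute (px ^ i * g * (px ^ i)⁻¹) (px ^ j * g * (px ^ j)⁻¹) := by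
    intro i j hij
    have h := comm_nat hpp hgx hgy (j - i).toNat
    have h1 := h.map (MulAut.conj (px ^ i)).toMonoidHom
    simp only [MulEquiv.toMonoidHom_eq_coe, MonoidHom.coe_coe, MulAut.conj_apply] at h1
    have h2 : px ^ j * g * (px ^ j)⁻¹ = px ^ i * (px ^ (((j - i).toNat : ℕ) : ℤ) * g *
        (px ^ (((j - i).toNat : ℕ) : ℤ))⁻¹) * (px ^ i)⁻¹ := by
      have : j = i + (((j - i).toNat : ℕ) : ℤ) := by omega
      conv_lhs => rw [this, zpow_add]
      group
    rw [h2]; exact h1
  rcases le_total i j with h | h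
  · exact key i j h
  · exact (key j i h).symm

theorem cj_mem (hpp : Commute px py) (hgy : py * g * py⁻¹ = g * (px * g * px⁻¹)) (n : ℕ) :
    ∀ m : ℤ, cj px py g m n ∈
      Subgroup.closure (Set.range fun i : ℤ => px ^ i * g * (px ^ i)⁻¹) := by
  induction n with
  | zero =>
    intro m
    apply Subgroup.subset_closure
    exact ⟨m, by simp [cj]⟩
  | succ k ih =>
    intro m
    have : cj px py g m ((k + 1 : ℕ) : ℤ) = cj px py g m k * cj px py g (m + 1) k := by
      rw [← cj_rel hpp hgy]; push_cast; rfl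
    rw [this]
    exact mul_mem (ih _) (ih _)

theorem cj_comm (hpp : Commute px py) (hgx : Commute g (px * g * px⁻¹))
    (hgy : py * g * py⁻¹ = g * (px * g * px⁻¹)) (m n m' n' : ℤ) :
    Commute (cj px py g m n) (cj px py g m' n') := by
  have h1 : ∀ (n n' : ℕ) (m m' : ℤ), Commute (cj px py g m n) (cj px py g m' n') := by
    intro n n' m m'
    have hA := cj_mem (px := px) (py := py) (g := g) hpp hgy n m
    have hB := cj_mem (px := px) (py := py) (g := g) hpp hgy n' m'
    have hle : Subgroup.closure (Set.range fun i : ℤ => px ^ i * g * (px ^ i)⁻¹) ≤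
        Subgroup.centralizer (Subgroup.closure
          (Set.range fun i : ℤ => px ^ i * g * (px ^ i)⁻¹) : Set G) := by
      rw [Subgroup.centralizer_closure]
      rw [Subgroup.closure_le]
      rintro _ ⟨i, rfl⟩
      simp only [SetLike.mem_coe]
      rw [Subgroup.mem_centralizer_iff]
      rintro _ ⟨j, rfl⟩
      exact (comm_int hpp hgx hgy j i).eq
    have := hle hA
    rw [Subgroup.mem_centralizer_iff] at this
    exact (this _ hB).symm
  obtain ⟨k, hk, hk'⟩ : ∃ k : ℤ, k ≤ n ∧ k ≤ n' := ⟨min n n', min_le_left _ _, min_le_right _ _⟩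
  have h2 : ∀ m n : ℤ, k ≤ n → cj px py g m n =
      py ^ k * cj px py g m ((n - k).toNat : ℕ) * (py ^ k)⁻¹ := by
    intro m n hn
    have e : n = k + ((n - k).toNat : ℕ) := by omega
    have : px ^ m * py ^ n = py ^ k * (px ^ m * py ^ (((n - k).toNat : ℕ) : ℤ)) := by
      conv_lhs => rw [e, zpow_add]
      rw [← mul_assoc, ← mul_assoc, ((hpp.zpow_zpow m k)).eq]
    simp only [cj, this]; group
  rw [h2 m n hk, h2 m' n' hk']
  have h3 := (h1 (n - k).toNat (n' - k).toNat m m').map (MulAut.conj (py ^ k)).toMonoidHom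
  simpa only [MulEquiv.toMonoidHom_eq_coe, MonoidHom.coe_coe, MulAut.conj_apply] using h3

theorem exists_root (hpp : Commute px py) (hg : g * g = 1) (hgx : Commute g (px * g * px⁻¹))
    (hgy : py * g * py⁻¹ = g * (px * g * px⁻¹)) :
    ∃ X : R → G, (∀ r s, X (r + s) = X r * X s) ∧ ∀ m n, X (Er m n) = cj px py g m n := by
  let S : Set G := Set.range fun p : ℤ × ℤ => cj px py g p.1 p.2
  have hcomm : ∀ a ∈ S, ∀ b ∈ S, a * b = b * a := by
    rintro _ ⟨p, rfl⟩ _ ⟨q, rfl⟩
    exact (cj_comm hpp hgx hgy _ _ _ _).eq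
  let _ : CommGroup (Subgroup.closure S) :=
    { (Subgroup.closure S).toGroup with
      mul_comm := by
        have hle : Subgroup.closure S ≤ Subgroup.centralizer (Subgroup.closure S : Set G) := by
          rw [Subgroup.centralizer_closure, Subgroup.closure_le]
          intro a ha
          simp only [SetLike.mem_coe]
          rw [Subgroup.mem_centralizer_iff]
          intro b hb
          exact hcomm b hb a ha
        rintro ⟨a, ha⟩ ⟨b, hb⟩
        apply Subtype.ext
        have := hle ha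
        rw [Subgroup.mem_centralizer_iff] at this
        exact (this b hb).symm }
  have hsq : ∀ a : Subgroup.closure S, a * a = 1 := by
    rintro ⟨a, ha⟩
    apply Subtype.ext
    show a * a = 1
    have hle : Subgroup.closure S ≤ Subgroup.centralizer (Subgroup.closure S : Set G) := by
      rw [Subgroup.centralizer_closure, Subgroup.closure_le]
      intro a ha
      simp only [SetLike.mem_coe]
      rw [Subgroup.mem_centralizer_iff]
      intro b hb
      exact hcomm b hb a ha
    induction ha using Subgroup.closure_induction with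
    | mem z hz =>
      obtain ⟨p, rfl⟩ := hz
      simp only [cj]
      calc _ = px ^ p.1 * py ^ p.2 * (g * g) * (px ^ p.1 * py ^ p.2)⁻¹ := by group
        _ = 1 := by rw [hg]; group
    | one => simp
    | mul a b ha hb iha ihb =>
      have := hle ha
      rw [Subgroup.mem_centralizer_iff] at this
      have e := this b hb
      calc a * b * (a * b) = a * (b * a) * b := by group
        _ = a * (a * b) * b := by rw [e]
        _ = (a * a) * (b * b) := by group
        _ = 1 := by rw [iha, ihb, one_mul]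
    | inv a _ iha => rw [← mul_inv_rev, iha, inv_one]
  obtain ⟨φ, hφ⟩ := exists_hom (A := Additive (Subgroup.closure S))
    (fun a => hsq a.toMul)
    (fun m n => Additive.ofMul ⟨cj px py g m n, Subgroup.subset_closure ⟨(m, n), rfl⟩⟩)
    (fun m n => by
      rw [← ofMul_mul]
      congr 1
      exact Subtype.ext (cj_rel hpp hgy m n))
  refine ⟨fun r => ((φ r).toMul : Subgroup.closure S), ?_, ?_⟩
  · intro r s
    simp only
    rw [map_add]
    rfl
  · intro m n
    simp only
    rw [hφ]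
    rfl

end

end Pool.Agent.R794.Co
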