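import Pool.Agent.R794.Co.Roots

/-!
Finitely many relations give a homomorphism from `Q`.
-/

namespace Pool.Agent.R794.Co

structure Rel {G : Type*} [Group G] (px py sx sy a b c d e : G) : Prop where
  t1 : Commute px py
  t2 : Commute px sx
  t3 : Commute px sy
  t4 : Commute py sx
  t5 : Commute py sy
  t6 : Commute sx sy
  a2 : a * a = 1
  b2 : b * b = 1
  c2 : c * c = 1
  d2 : d * d = 1
  e2 : e * e = 1
  za1 : Commute sx a
  za2 : Commute sy a
  zb1 : Commute (px * sx⁻¹) b
  zb2 : Commute (py * sy⁻¹) b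
  zc1 : Commute px c
  zc2 : Commute py c
  zd1 : Commute px d
  zd2 : Commute py d
  ze1 : Commute sx e
  ze2 : Commute sy e
  ax : Commute a (px * a * px⁻¹)
  ay : py * a * py⁻¹ = a * (px * a * px⁻¹)
  bx : Commute b (px⁻¹ * b * px)
  by' : py⁻¹ * b * py = b * (px⁻¹ * b * px)
  cx : Commute c (sx * c * sx⁻¹)
  cy : sy * c * sy⁻¹ = c * (sx * c * sx⁻¹)
  dx : Commute d (sx⁻¹ * d * sx)
  dy : sy⁻¹ * d * sy = d * (sx⁻¹ * d * sx)
  ex : Commute e (px⁻¹ * e * px)
  ey : py⁻¹ * e * py = e * (px⁻¹ * e * px)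
  ac : Commute a c
  ad : Commute a d
  bd : Commute b d
  be : Commute b e
  ce : Commute c e
  de : Commute d e
  ae : Commute a e
  ab : a * b = d * b * a
  bc : b * c = e * c * b

variable {G : Type*} [Group G]

def tz (px py : G) (h : Commute px py) : UU →* G where
  toFun p := px ^ p.toAdd.1 * py ^ p.toAdd.2
  map_one' := by simp
  map_mul' p q := by
    simp only [toAdd_mul, Prod.fst_add, Prod.snd_add, zpow_add]
    have := (h.zpow_zpow q.toAdd.1 p.toAdd.2).eq
    calc px ^ p.toAdd.1 * px ^ q.toAdd.1 * (py ^ p.toAdd.2 * py ^ q.toAdd.2)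
        = px ^ p.toAdd.1 * (px ^ q.toAdd.1 * py ^ p.toAdd.2) * py ^ q.toAdd.2 := by group
      _ = px ^ p.toAdd.1 * (py ^ p.toAdd.2 * px ^ q.toAdd.1) * py ^ q.toAdd.2 := by rw [this]
      _ = _ := by group

theorem tz_gx (px py : G) (h : Commute px py) : tz px py h gx = px := by
  show px ^ (1 : ℤ) * py ^ (0 : ℤ) = px
  simp

theorem tz_gy (px py : G) (h : Commute px py) : tz px py h gy = py := by
  show px ^ (0 : ℤ) * py ^ (1 : ℤ) = py
  simp

theorem tz_comm {px py : G} {h : Commute px py} {z : G} (h1 : Commute px z) (h2 : Commute py z)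
    (p : UU) : Commute (tz px py h p) z := (h1.zpow_left _).mul_left (h2.zpow_left _)

def qa : T →* UU := MonoidHom.fst _ _
def qc : T →* UU := MonoidHom.snd _ _
def qb : T →* UU := (qa * qc)⁻¹
def qd : T →* UU := qc⁻¹
def qe : T →* UU := qa⁻¹
def ka : UU →* T := MonoidHom.inl _ _
def kc : UU →* T := MonoidHom.inr _ _
def kb : UU →* T := (MonoidHom.inl _ _).comp invMonoidHom
def kd : UU →* T := (MonoidHom.inr _ _).comp invMonoidHom

theorem qa_apply (t : T) : qa t = t.1 := rfl
theorem qc_apply (t : T) : qc t = t.2 := rfl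
theorem qb_apply (t : T) : qb t = (t.1 * t.2)⁻¹ := rfl
theorem qd_apply (t : T) : qd t = t.2⁻¹ := rfl
theorem qe_apply (t : T) : qe t = t.1⁻¹ := rfl
theorem ka_apply (p : UU) : ka p = (p, 1) := rfl
theorem kc_apply (p : UU) : kc p = (1, p) := rfl
theorem kb_apply (p : UU) : kb p = (p⁻¹, 1) := rfl
theorem kd_apply (p : UU) : kd p = (1, p⁻¹) := rfl

namespace Rel

variable {px py sx sy a b c d e : G} (h : Rel px py sx sy a b c d e)

include h

def τ : T →* G :=
  MonoidHom.noncommCoprod (tz px py h.t1) (tz sx sy h.t6) (fun m _ =>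
    tz_comm (tz_comm h.t2.symm h.t3.symm _).symm (tz_comm h.t4.symm h.t5.symm _).symm m)

theorem τ_apply (t : T) : h.τ t = tz px py h.t1 t.1 * tz sx sy h.t6 t.2 := rfl

theorem τ1 (p : UU) : h.τ (p, 1) = tz px py h.t1 p := by
  rw [τ_apply]; simp

theorem τ2 (p : UU) : h.τ (1, p) = tz sx sy h.t6 p := by
  rw [τ_apply]; simp

theorem exA : ∃ X, Root h.τ qa X ∧ X 1 = a := by
  apply Root.exists_root' h.τ qa ka (fun p => rfl) a h.a2
  · intro t ht
    have : t = (1, t.2) := Prod.ext ht rfl
    rw [this, h.τ2]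
    exact tz_comm h.za1 h.za2 _
  · rw [ka_apply, h.τ1, tz_gx]; exact h.ax
  · rw [ka_apply, ka_apply, h.τ1, h.τ1, tz_gx, tz_gy]; exact h.ay

theorem exC : ∃ X, Root h.τ qc X ∧ X 1 = c := by
  apply Root.exists_root' h.τ qc kc (fun p => rfl) c h.c2
  · intro t ht
    have : t = (t.1, 1) := Prod.ext rfl ht
    rw [this, h.τ1]
    exact tz_comm h.zc1 h.zc2 _
  · rw [kc_apply, h.τ2, tz_gx]; exact h.cx
  · rw [kc_apply, kc_apply, h.τ2, h.τ2, tz_gx, tz_gy]; exact h.cy

theorem exD : ∃ X, Root h.τ qd X ∧ X 1 = d := by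
  apply Root.exists_root' h.τ qd kd (fun p => by rw [kd_apply, qd_apply, inv_inv]) d h.d2
  · intro t ht
    have : t = (t.1, 1) := Prod.ext rfl (by rw [qd_apply] at ht; exact inv_eq_one.mp ht)
    rw [this, h.τ1]
    exact tz_comm h.zd1 h.zd2 _
  · rw [kd_apply, h.τ2, map_inv, tz_gx, inv_inv]; exact h.dx
  · rw [kd_apply, kd_apply, h.τ2, h.τ2, map_inv, map_inv, tz_gx, tz_gy, inv_inv, inv_inv]
    exact h.dy

theorem exE : ∃ X, Root h.τ qe X ∧ X 1 = e := by
  apply Root.exists_root' h.τ qe kb (fun p => by rw [kb_apply, qe_apply, inv_inv]) e h.e2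
  · intro t ht
    have : t = (1, t.2) := Prod.ext (by rw [qe_apply] at ht; exact inv_eq_one.mp ht) rfl
    rw [this, h.τ2]
    exact tz_comm h.ze1 h.ze2 _
  · rw [kb_apply, h.τ1, map_inv, tz_gx, inv_inv]; exact h.ex
  · rw [kb_apply, kb_apply, h.τ1, h.τ1, map_inv, map_inv, tz_gx, tz_gy, inv_inv, inv_inv]
    exact h.ey

theorem exB : ∃ X, Root h.τ qb X ∧ X 1 = b := by
  apply Root.exists_root' h.τ qb kb
    (fun p => by rw [kb_apply, qb_apply]; simp) b h.b2
  · intro t ht
    have ht2 : t.2 = t.1⁻¹ := by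
      rw [qb_apply, inv_eq_one] at ht
      exact (inv_eq_of_mul_eq_one_right ht).symm
    have h1 : h.τ t = (px * sx⁻¹) ^ t.1.toAdd.1 * (py * sy⁻¹) ^ t.1.toAdd.2 := by
      rw [τ_apply, ht2, map_inv]
      show px ^ t.1.toAdd.1 * py ^ t.1.toAdd.2 * (sx ^ t.1.toAdd.1 * sy ^ t.1.toAdd.2)⁻¹ = _
      rw [h.t2.inv_right.mul_zpow, h.t5.inv_right.mul_zpow]
      have e1 := (h.t4.zpow_zpow t.1.toAdd.2 t.1.toAdd.1).inv_right.eq
      have e2 := (h.t6.zpow_zpow t.1.toAdd.1 t.1.toAdd.2).inv_inv.eq
      rw [mul_inv_rev]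
      calc px ^ t.1.toAdd.1 * py ^ t.1.toAdd.2 *
            ((sy ^ t.1.toAdd.2)⁻¹ * (sx ^ t.1.toAdd.1)⁻¹)
          = px ^ t.1.toAdd.1 * py ^ t.1.toAdd.2 *
            ((sx ^ t.1.toAdd.1)⁻¹ * (sy ^ t.1.toAdd.2)⁻¹) := by rw [e2]
        _ = px ^ t.1.toAdd.1 * (py ^ t.1.toAdd.2 * (sx ^ t.1.toAdd.1)⁻¹) *
             (sy ^ t.1.toAdd.2)⁻¹ := by group
        _ = _ := by rw [e1, inv_zpow, inv_zpow]; group
    rw [h1]
    exact (h.zb1.zpow_left _).mul_left (h.zb2.zpow_left _)
  · rw [kb_apply, h.τ1, map_inv, tz_gx, inv_inv]; exact h.bx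
  · rw [kb_apply, kb_apply, h.τ1, h.τ1, map_inv, map_inv, tz_gx, tz_gy, inv_inv, inv_inv]
    exact h.by'

/-- The homomorphism from `Q` determined by the relations. -/
theorem exists_hom : ∃ Ψ : Q →* G,
    Ψ (SemidirectProduct.inr (gx, 1)) = px ∧ Ψ (SemidirectProduct.inr (gy, 1)) = py ∧
    Ψ (SemidirectProduct.inr (1, gx)) = sx ∧ Ψ (SemidirectProduct.inr (1, gy)) = sy ∧
    Ψ (SemidirectProduct.inl ⟨1, 0, 0, 0, 0, 0⟩) = a ∧
    Ψ (SemidirectProduct.inl ⟨0, 1, 0, 0, 0, 0⟩) = b ∧
    Ψ (SemidirectProduct.inl ⟨0, 0, 1, 0, 0, 0⟩) = c ∧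
    Ψ (SemidirectProduct.inl ⟨0, 0, 0, 1, 0, 0⟩) = d ∧
    Ψ (SemidirectProduct.inl ⟨0, 0, 0, 0, 1, 0⟩) = e := by
  obtain ⟨A, hA, hA1⟩ := h.exA
  obtain ⟨B, hB, hB1⟩ := h.exB
  obtain ⟨C, hC, hC1⟩ := h.exC
  obtain ⟨D, hD, hD1⟩ := h.exD
  obtain ⟨E', hE, hE1⟩ := h.exE
  have ac : ∀ r s, Commute (A r) (C s) := fun r s =>
    hA.comm hC (fun p p' => ⟨(p, p'), rfl, rfl⟩) (by rw [hA1, hC1]; exact h.ac) r s
  have ad : ∀ r s, Commute (A r) (D s) := fun r s =>
    hA.comm hD (fun p p' => ⟨(p, p'⁻¹), rfl, by rw [qd_apply, inv_inv]⟩)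
      (by rw [hA1, hD1]; exact h.ad) r s
  have bd : ∀ r s, Commute (B r) (D s) := fun r s =>
    hB.comm hD (fun p p' => ⟨(p⁻¹ * p', p'⁻¹), by rw [qb_apply]; simp,
      by rw [qd_apply, inv_inv]⟩) (by rw [hB1, hD1]; exact h.bd) r s
  have be : ∀ r s, Commute (B r) (E' s) := fun r s =>
    hB.comm hE (fun p p' => ⟨(p'⁻¹, p⁻¹ * p'), by rw [qb_apply]; simp,
      by rw [qe_apply, inv_inv]⟩) (by rw [hB1, hE1]; exact h.be) r s
  have ce : ∀ r s, Commute (C r) (E' s) := fun r s =>
    hC.comm hE (fun p p' => ⟨(p'⁻¹, p), rfl, by rw [qe_apply, inv_inv]⟩)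
      (by rw [hC1, hE1]; exact h.ce) r s
  have de : ∀ r s, Commute (D r) (E' s) := fun r s =>
    hD.comm hE (fun p p' => ⟨(p'⁻¹, p⁻¹), by rw [qd_apply, inv_inv], by rw [qe_apply, inv_inv]⟩)
      (by rw [hD1, hE1]; exact h.de) r s
  have ab : ∀ r s, A r * B s = D (r * s) * B s * A r :=
    hA.mul hB hD (fun p p' => ⟨(p, p⁻¹ * p'⁻¹), rfl, by rw [qb_apply]; simp⟩)
      (fun t => by rw [qd_apply, qa_apply, qb_apply, mul_inv, mul_inv_cancel_left]) ad bd
      (by rw [hA1, hB1, hD1]; exact h.ab)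
  have bc : ∀ r s, B r * C s = E' (r * s) * C s * B r :=
    hB.mul hC hE (fun p p' => ⟨(p⁻¹ * p'⁻¹, p'), by rw [qb_apply]; simp, rfl⟩)
      (fun t => by rw [qe_apply, qb_apply, qc_apply, mul_inv, inv_mul_cancel_right]) be ce
      (by rw [hB1, hC1, hE1]; exact h.bc)
  -- the two commutators
  obtain ⟨F2, hF2⟩ : ∃ F2 : R → R → G, ∀ r s, F2 r s = A r * E' s * (A r)⁻¹ * (E' s)⁻¹ :=
    ⟨_, fun _ _ => rfl⟩
  obtain ⟨G2, hG2⟩ : ∃ G2 : R → R → G, ∀ r s, G2 r s = D r * C s * (D r)⁻¹ * (C s)⁻¹ :=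
    ⟨_, fun _ _ => rfl⟩
  have ae : ∀ r s, A r * E' s = F2 r s * E' s * A r := by intro r s; rw [hF2]; group
  have dc : ∀ r s, D r * C s = G2 r s * C s * D r := by intro r s; rw [hG2]; group
  have F2C : ∀ r s t, Commute (F2 r s) (C t) := by
    intro r s t; rw [hF2]
    exact (((ac r t).mul_left (ce t s).symm).mul_left (ac r t).inv_left).mul_left
      (ce t s).symm.inv_left
  have F2D : ∀ r s t, Commute (F2 r s) (D t) := by
    intro r s t; rw [hF2]
    exact (((ad r t).mul_left (de t s).symm).mul_left (ad r t).inv_left).mul_left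
      (de t s).symm.inv_left
  have G2A : ∀ r s t, Commute (G2 r s) (A t) := by
    intro r s t; rw [hG2]
    exact (((ad t r).symm.mul_left (ac t s).symm).mul_left (ad t r).symm.inv_left).mul_left
      (ac t s).symm.inv_left
  have G2E : ∀ r s t, Commute (G2 r s) (E' t) := by
    intro r s t; rw [hG2]
    exact (((de r t).mul_left (ce s t)).mul_left (de r t).inv_left).mul_left
      (ce s t).inv_left
  have F2B : ∀ r s t, Commute (F2 r s) (B t) := by
    intro r s t
    have e1 : B t * A r * (B t)⁻¹ = (D (r * t))⁻¹ * A r := by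
      rw [eq_inv_mul_iff_mul_eq]
      have := ab r t
      calc D (r * t) * (B t * A r * (B t)⁻¹) = (D (r * t) * B t * A r) * (B t)⁻¹ := by group
        _ = A r := by rw [← this]; group
    have e2 : B t * E' s * (B t)⁻¹ = E' s := by rw [(be t s).eq]; group
    have e3 : B t * F2 r s * (B t)⁻¹ = F2 r s := by
      rw [hF2]
      calc B t * (A r * E' s * (A r)⁻¹ * (E' s)⁻¹) * (B t)⁻¹
          = (B t * A r * (B t)⁻¹) * (B t * E' s * (B t)⁻¹) * (B t * A r * (B t)⁻¹)⁻¹ *
              (B t * E' s * (B t)⁻¹)⁻¹ := by group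
        _ = (D (r * t))⁻¹ * (A r * E' s * (A r)⁻¹) * (D (r * t) * (E' s)⁻¹) := by
              rw [e1, e2]; group
        _ = (D (r * t))⁻¹ * ((A r * E' s * (A r)⁻¹) * ((E' s)⁻¹ * D (r * t))) := by
              rw [((de (r * t) s).inv_right).eq]; group
        _ = (D (r * t))⁻¹ * (F2 r s * D (r * t)) := by rw [hF2]; group
        _ = (D (r * t))⁻¹ * (D (r * t) * F2 r s) := by rw [(F2D r s (r * t)).eq]
        _ = A r * E' s * (A r)⁻¹ * (E' s)⁻¹ := by rw [hF2]; group
    show F2 r s * B t = B t * F2 r s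
    calc F2 r s * B t = (B t * F2 r s * (B t)⁻¹) * B t := by rw [e3]
      _ = _ := by group
  have FG : ∀ r s t, F2 r (s * t) = G2 (r * s) t := by
    intro r s t
    have e1 : A r * (B s * C t) = F2 r (s * t) * E' (s * t) * C t * D (r * s) * B s * A r := by
      rw [bc]
      calc A r * (E' (s * t) * C t * B s) = (A r * E' (s * t)) * C t * B s := by group
        _ = F2 r (s * t) * E' (s * t) * (A r * C t) * B s := by rw [ae]; group
        _ = F2 r (s * t) * E' (s * t) * C t * (A r * B s) := by rw [(ac r t).eq]; group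
        _ = _ := by rw [ab]; group
    have e2 : A r * B s * C t = G2 (r * s) t * E' (s * t) * C t * D (r * s) * B s * A r := by
      rw [ab]
      calc D (r * s) * B s * A r * C t = D (r * s) * B s * (A r * C t) := by group
        _ = D (r * s) * (B s * C t) * A r := by rw [(ac r t).eq]; group
        _ = (D (r * s) * E' (s * t)) * C t * B s * A r := by rw [bc]; group
        _ = E' (s * t) * (D (r * s) * C t) * B s * A r := by rw [(de (r * s) (s * t)).eq]; group
        _ = (E' (s * t) * G2 (r * s) t) * C t * D (r * s) * B s * A r := by rw [dc]; group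
        _ = _ := by rw [← (G2E (r * s) t (s * t)).eq]
    have e3 : F2 r (s * t) * (E' (s * t) * C t * D (r * s) * B s * A r) =
        G2 (r * s) t * (E' (s * t) * C t * D (r * s) * B s * A r) := by
      calc _ = A r * (B s * C t) := by rw [e1]; group
        _ = A r * B s * C t := by group
        _ = _ := by rw [e2]; group
    exact mul_right_cancel e3
  have FG1 : ∀ r t, F2 r t = G2 r t := by
    intro r t
    have := FG r 1 t
    rwa [one_mul, mul_one] at this
  obtain ⟨F, hF⟩ : ∃ F : R → G, ∀ r, F r = F2 r 1 := ⟨_, fun _ => rfl⟩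
  have F2F : ∀ r s, F2 r s = F (r * s) := by
    intro r s
    rw [hF]
    have h1 := FG r s 1
    rw [mul_one] at h1
    rw [h1, FG1]
  have G2F : ∀ r s, G2 r s = F (r * s) := fun r s => by rw [← FG1, F2F]
  have FA : ∀ r t, Commute (F r) (A t) := fun r t => by rw [hF, FG1]; exact G2A _ _ _
  have FE : ∀ r t, Commute (F r) (E' t) := fun r t => by rw [hF, FG1]; exact G2E _ _ _
  have FB : ∀ r t, Commute (F r) (B t) := fun r t => by rw [hF]; exact F2B _ _ _
  have FC : ∀ r t, Commute (F r) (C t) := fun r t => by rw [hF]; exact F2C _ _ _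
  have FD : ∀ r t, Commute (F r) (D t) := fun r t => by rw [hF]; exact F2D _ _ _
  have ae' : ∀ r s, A r * E' s = F (r * s) * E' s * A r := fun r s => by rw [ae, F2F]
  have dc' : ∀ r s, D r * C s = F (r * s) * C s * D r := fun r s => by rw [dc, G2F]
  have FF : ∀ r s, Commute (F r) (F s) := by
    intro r s
    rw [hF s, hF2]
    exact (((FA r s).mul_right (FE r 1)).mul_right (FA r s).inv_right).mul_right
      (FE r 1).inv_right
  have Fadd : ∀ r s, F (r + s) = F r * F s := by
    intro r s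
    have e1 : A (r + s) * E' 1 = F (r + s) * E' 1 * A (r + s) := by
      have := ae' (r + s) 1
      rwa [mul_one] at this
    have e2 : A (r + s) * E' 1 = F r * F s * E' 1 * A (r + s) := by
      have h1 := ae' r 1
      have h2 := ae' s 1
      rw [mul_one] at h1 h2
      rw [hA.add]
      calc A r * A s * E' 1 = A r * (A s * E' 1) := by group
        _ = (A r * F s) * E' 1 * A s := by rw [h2]; group
        _ = F s * (A r * E' 1) * A s := by rw [← (FA s r).eq]; group
        _ = (F s * F r) * E' 1 * (A r * A s) := by rw [h1]; group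
        _ = _ := by rw [(FF s r).eq]
    have e3 : F (r + s) * (E' 1 * A (r + s)) = F r * F s * (E' 1 * A (r + s)) := by
      calc _ = A (r + s) * E' 1 := by rw [e1]; group
        _ = _ := by rw [e2]; group
    exact mul_right_cancel e3
  have F0 : F 0 = 1 := by
    have := Fadd 0 0
    rw [add_zero] at this
    exact mul_eq_left.mp this.symm
  have F1 : F 1 = 1 := by
    rw [hF, hF2, hA1, hE1, h.ae.eq]; group
  have Fτ : ∀ t r, h.τ t * F r * (h.τ t)⁻¹ = F r := by
    intro t r
    have e1 := hA.conj t r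
    have e2 := hE.conj t 1
    rw [hF, hF2]
    calc h.τ t * (A r * E' 1 * (A r)⁻¹ * (E' 1)⁻¹) * (h.τ t)⁻¹
        = (h.τ t * A r * (h.τ t)⁻¹) * (h.τ t * E' 1 * (h.τ t)⁻¹) *
          (h.τ t * A r * (h.τ t)⁻¹)⁻¹ * (h.τ t * E' 1 * (h.τ t)⁻¹)⁻¹ := by group
      _ = F2 (w (qa t) * r) (w (qe t) * 1) := by rw [e1, e2, hF2]
      _ = F r := by
          rw [F2F]; congr 1
          rw [qa_apply, qe_apply, map_inv]
          have : ((w t.1 : Rˣ) : R) * (((w t.1)⁻¹ : Rˣ) : R) = 1 := Units.mul_inv _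
          linear_combination r * this
      _ = _ := by rw [hF, hF2]
  -- the map on the quotient by `M`
  have Fwd : ∀ r s, NN.pr M r = NN.pr M s → F r = F s := by
    intro r s hrs
    have h1 : NN.pr M (r - s) = 0 := by rw [map_sub, hrs, sub_self]
    have h2 : r = (r - s) + s := by ring
    rcases pr_eq_zero.mp h1 with h3 | h3
    · rw [h2, h3, zero_add]
    · rw [h2, h3, Fadd, F1, one_mul]
  obtain ⟨Fb, hFb⟩ : ∃ Fb : R ⧸ M → G, ∀ r, Fb (NN.pr M r) = F r := by
    refine ⟨fun z => F (Classical.choose (pr_surj z)), fun r => ?_⟩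
    exact Fwd _ _ (Classical.choose_spec (pr_surj (NN.pr M r)))
  let ψ : N →* G :=
    { toFun := fun n => C n.c * B n.b * E' n.e * A n.a * D n.d * Fb n.f
      map_one' := by
        have : Fb 0 = 1 := by
          have := hFb 0
          rw [map_zero, F0] at this
          exact this
        simp [hC.zero, hB.zero, hE.zero, hA.zero, hD.zero, this]
      map_mul' := by
        intro n m
        obtain ⟨f, hf⟩ := pr_surj n.f
        obtain ⟨f', hf'⟩ := pr_surj m.f
        simp only [NN.mul_a, NN.mul_b, NN.mul_c, NN.mul_d, NN.mul_e, NN.mul_f]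
        rw [← hf, ← hf', ← map_add, ← map_add, hFb, hFb, hFb]
        generalize n.a = a1, n.b = b1, n.c = c1, n.d = d1, n.e = e1
        generalize m.a = a', m.b = b', m.c = c', m.d = d', m.e = e'
        symm
        calc C c1 * B b1 * E' e1 * A a1 * D d1 * F f * (C c' * B b' * E' e' * A a' * D d' * F f')
            = C c1 * B b1 * E' e1 * A a1 * D d1 * (F f * C c') * B b' * E' e' * A a' * D d' *
                F f' := by group
          _ = C c1 * B b1 * E' e1 * A a1 * (D d1 * C c') * F f * B b' * E' e' * A a' * D d' *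
                F f' := by rw [(FC f c').eq]; group
          _ = C c1 * B b1 * E' e1 * (A a1 * F (d1 * c')) * C c' * D d1 * F f * B b' * E' e' *
                A a' * D d' * F f' := by rw [dc']; group
          _ = C c1 * B b1 * (E' e1 * F (d1 * c')) * (A a1 * C c') * D d1 * F f * B b' * E' e' *
                A a' * D d' * F f' := by rw [← (FA (d1 * c') a1).eq]; group
          _ = C c1 * (B b1 * F (d1 * c')) * (E' e1 * C c') * A a1 * D d1 * F f * B b' * E' e' *
                A a' * D d' * F f' := by rw [← (FE (d1 * c') e1).eq, (ac a1 c').eq]; group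
          _ = (C c1 * F (d1 * c')) * (B b1 * C c') * E' e1 * A a1 * D d1 * F f * B b' * E' e' *
                A a' * D d' * F f' := by rw [← (FB (d1 * c') b1).eq, ← (ce c' e1).eq]; group
          _ = F (d1 * c') * C c1 * (E' (b1 * c') * C c') * B b1 * E' e1 * A a1 * D d1 * F f *
                B b' * E' e' * A a' * D d' * F f' := by
                rw [← (FC (d1 * c') c1).eq, bc]; group
          _ = F (d1 * c') * (C c1 * C c') * (E' (b1 * c') * B b1) * E' e1 * A a1 * D d1 * F f *
                B b' * E' e' * A a' * D d' * F f' := by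
                rw [← (ce c' (b1 * c')).eq]; group
          _ = F (d1 * c') * C (c1 + c') * B b1 * (E' (b1 * c') * E' e1) * A a1 * D d1 *
                (F f * B b') * E' e' * A a' * D d' * F f' := by
                rw [← hC.add, ← (be b1 (b1 * c')).eq]; group
          _ = F (d1 * c') * C (c1 + c') * B b1 * E' (b1 * c' + e1) * A a1 * (D d1 * B b') *
                F f * E' e' * A a' * D d' * F f' := by
                rw [← hE.add, (FB f b').eq]; group
          _ = F (d1 * c') * C (c1 + c') * B b1 * E' (b1 * c' + e1) * (A a1 * B b') * D d1 *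
                F f * E' e' * A a' * D d' * F f' := by
                rw [← (bd b' d1).eq]; group
          _ = F (d1 * c') * C (c1 + c') * B b1 * E' (b1 * c' + e1) * (D (a1 * b') * B b') *
                A a1 * D d1 * F f * E' e' * A a' * D d' * F f' := by
                rw [ab]; group
          _ = F (d1 * c') * C (c1 + c') * B b1 * (E' (b1 * c' + e1) * B b') * (D (a1 * b') *
                A a1) * D d1 * F f * E' e' * A a' * D d' * F f' := by
                rw [← (bd b' (a1 * b')).eq]; group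
          _ = F (d1 * c') * C (c1 + c') * (B b1 * B b') * E' (b1 * c' + e1) * A a1 *
                (D (a1 * b') * D d1) * (F f * E' e') * A a' * D d' * F f' := by
                rw [← (be b' (b1 * c' + e1)).eq, ← (ad a1 (a1 * b')).eq]; group
          _ = F (d1 * c') * C (c1 + c') * B (b1 + b') * E' (b1 * c' + e1) * A a1 *
                (D (a1 * b' + d1) * E' e') * F f * A a' * D d' * F f' := by
                rw [← hB.add, ← hD.add, (FE f e').eq]; group
          _ = F (d1 * c') * C (c1 + c') * B (b1 + b') * E' (b1 * c' + e1) * (A a1 * E' e') *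
                D (a1 * b' + d1) * (F f * A a') * D d' * F f' := by
                rw [(de (a1 * b' + d1) e').eq]; group
          _ = F (d1 * c') * C (c1 + c') * B (b1 + b') * (E' (b1 * c' + e1) * F (a1 * e')) *
                E' e' * A a1 * (D (a1 * b' + d1) * A a') * F f * D d' * F f' := by
                rw [ae', (FA f a').eq]; group
          _ = F (d1 * c') * C (c1 + c') * (B (b1 + b') * F (a1 * e')) * (E' (b1 * c' + e1) *
                E' e') * (A a1 * A a') * D (a1 * b' + d1) * (F f * D d') * F f' := by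
                rw [← (FE (a1 * e') _).eq, ← (ad a' (a1 * b' + d1)).eq]; group
          _ = F (d1 * c') * (C (c1 + c') * F (a1 * e')) * B (b1 + b') * E' (b1 * c' + e1 + e') *
                A (a1 + a') * (D (a1 * b' + d1) * D d') * F f * F f' := by
                rw [← (FB (a1 * e') _).eq, ← hE.add, ← hA.add, (FD f d').eq]; group
          _ = (F (d1 * c') * F (a1 * e')) * C (c1 + c') * B (b1 + b') * E' (b1 * c' + e1 + e') *
                A (a1 + a') * D (a1 * b' + d1 + d') * (F f * F f') := by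
                rw [← (FC (a1 * e') _).eq, ← hD.add]; group
          _ = F (d1 * c' + a1 * e') * (C (c1 + c') * B (b1 + b') * E' (b1 * c' + e1 + e') *
                A (a1 + a') * D (a1 * b' + d1 + d')) * F (f + f') := by
                rw [← Fadd, ← Fadd]; group
          _ = (C (c1 + c') * B (b1 + b') * E' (b1 * c' + e1 + e') *
                A (a1 + a') * D (a1 * b' + d1 + d')) * (F (d1 * c' + a1 * e') * F (f + f')) := by
                rw [(((((FC (d1 * c' + a1 * e') (c1 + c')).mul_right (FB _ _)).mul_right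
                  (FE _ _)).mul_right (FA _ _)).mul_right (FD _ _)).eq]; group
          _ = _ := by
                rw [← Fadd]
                have i1 : b1 * c' + e1 + e' = e1 + e' + b1 * c' := by ring
                have i2 : a1 * b' + d1 + d' = d1 + d' + a1 * b' := by ring
                have i3 : d1 * c' + a1 * e' + (f + f') = f + f' + (a1 * e' + d1 * c') := by ring
                rw [i1, i2, i3] }
  have hψ : ∀ t n, ψ (act t n) = h.τ t * ψ n * (h.τ t)⁻¹ := by
    intro t n
    obtain ⟨f, hf⟩ := pr_surj n.f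
    show C (act t n).c * B (act t n).b * E' (act t n).e * A (act t n).a * D (act t n).d *
      Fb (act t n).f = h.τ t * (C n.c * B n.b * E' n.e * A n.a * D n.d * Fb n.f) * (h.τ t)⁻¹
    rw [act_a, act_b, act_c, act_d, act_e, act_f, ← hf, hFb]
    have jA := hA.conj t n.a
    have jB := hB.conj t n.b
    have jC := hC.conj t n.c
    have jD := hD.conj t n.d
    have jE := hE.conj t n.e
    rw [qa_apply] at jA
    rw [qc_apply] at jC
    rw [qb_apply, mul_inv, map_mul, map_inv, map_inv, Units.val_mul] at jB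
    rw [qd_apply, map_inv] at jD
    rw [qe_apply, map_inv] at jE
    rw [← jA, ← jB, ← jC, ← jD, ← jE]
    conv_lhs => rw [← Fτ t f]
    group
  refine ⟨SemidirectProduct.lift ψ h.τ ?_, ?_, ?_, ?_, ?_, ?_, ?_, ?_, ?_, ?_⟩
  · intro t
    apply MonoidHom.ext
    intro n
    exact hψ t n
  · rw [SemidirectProduct.lift_inr, h.τ1, tz_gx]
  · rw [SemidirectProduct.lift_inr, h.τ1, tz_gy]
  · rw [SemidirectProduct.lift_inr, h.τ2, tz_gx]
  · rw [SemidirectProduct.lift_inr, h.τ2, tz_gy]
  all_goals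
    rw [SemidirectProduct.lift_inl]
    have hb0 : Fb 0 = 1 := by
      have := hFb 0
      rw [map_zero, F0] at this
      exact this
    simp only [ψ, MonoidHom.coe_mk, OneHom.coe_mk, hC.zero, hB.zero, hE.zero, hA.zero, hD.zero,
      hb0, one_mul, mul_one]
    assumption

end Rel

end Pool.Agent.R794.Co
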