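import Pool.Agent.R794.Co.Main

/-!
Semidirect products with a finite cyclic group, finite presentability, and the final examples.
-/

namespace Pool.Agent.R794.Co

open SemidirectProduct

section FP

variable {K' H : Type} [Group K'] [Group H] (φ : H →* MulAut K')

/-- A semidirect product of a finite group and a finitely presented group is finitely
presented. -/
theorem fp_semidirect [Finite K'] [hH : Group.IsFinitelyPresented H] :
    Group.IsFinitelyPresented (K' ⋊[φ] H) := by
  obtain ⟨n, g, hg, -⟩ := hH.out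
  let U : Set H := g '' Set.range FreeGroup.of
  have hU : Subgroup.closure U = ⊤ := by
    rw [← MonoidHom.map_closure, FreeGroup.closure_range_of, ← MonoidHom.range_eq_map,
      MonoidHom.range_eq_top.mpr hg]
  have hUf : U.Finite := (Set.finite_range _).image _
  let Rl : Set (Monoid.Coprod K' H) := (fun p : H × K' =>
    (Monoid.Coprod.inr p.1 : Monoid.Coprod K' H) * Monoid.Coprod.inl p.2 *
      (Monoid.Coprod.inr p.1)⁻¹ * (Monoid.Coprod.inl (φ p.1 p.2))⁻¹) '' (U ×ˢ Set.univ)
  let W := Subgroup.normalClosure Rl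
  let π := QuotientGroup.mk' W
  have h0 : ∀ h ∈ U, ∀ k, π (Monoid.Coprod.inr h) * π (Monoid.Coprod.inl k) *
      (π (Monoid.Coprod.inr h))⁻¹ = π (Monoid.Coprod.inl (φ h k)) := by
    intro h hh k
    have h1 : π ((Monoid.Coprod.inr h : Monoid.Coprod K' H) * Monoid.Coprod.inl k *
      (Monoid.Coprod.inr h)⁻¹ * (Monoid.Coprod.inl (φ h k))⁻¹) = 1 :=
        (QuotientGroup.eq_one_iff _).mpr
          (Subgroup.subset_normalClosure ⟨(h, k), ⟨hh, trivial⟩, rfl⟩)
    rw [map_mul, map_mul, map_mul, map_inv, map_inv, mul_inv_eq_one] at h1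
    exact h1
  have h1 : ∀ h k, π (Monoid.Coprod.inr h) * π (Monoid.Coprod.inl k) *
      (π (Monoid.Coprod.inr h))⁻¹ = π (Monoid.Coprod.inl (φ h k)) := by
    intro h
    have hh : h ∈ Subgroup.closure U := by rw [hU]; trivial
    induction hh using Subgroup.closure_induction with
    | mem x hx => exact h0 x hx
    | one => intro k; simp
    | mul x y _ _ hx hy =>
      intro k
      rw [map_mul, map_mul, map_mul, MulAut.mul_apply, ← hx, ← hy]; group
    | inv x _ hx =>
      intro k
      have e1 := hx (φ x⁻¹ k)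
      have e2 : φ x (φ x⁻¹ k) = k := by
        rw [← MulAut.mul_apply, ← map_mul, mul_inv_cancel, map_one, MulAut.one_apply]
      rw [e2] at e1
      rw [← e1, map_inv, map_inv]; group
  let back : K' ⋊[φ] H →* Monoid.Coprod K' H ⧸ W := SemidirectProduct.lift
    (π.comp Monoid.Coprod.inl) (π.comp Monoid.Coprod.inr) (by
      intro h
      apply MonoidHom.ext
      intro k
      exact (h1 h k).symm)
  let fwd : Monoid.Coprod K' H →* K' ⋊[φ] H := Monoid.Coprod.lift inl inr
  have hback : back.comp fwd = π := by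
    apply Monoid.Coprod.hom_ext
    · ext k; simp [back, fwd]
    · ext h; simp [back, fwd]
  have hsurj : Function.Surjective fwd := by
    intro x
    refine ⟨Monoid.Coprod.inl x.left * Monoid.Coprod.inr x.right, ?_⟩
    simp [fwd]
  refine Group.IsFinitelyPresented.of_surjective fwd hsurj
    ⟨Rl, (hUf.prod (Set.finite_univ)).image _, ?_⟩
  apply le_antisymm
  · apply Subgroup.normalClosure_le_normal
    rintro _ ⟨⟨h, k⟩, _, rfl⟩
    change fwd _ = 1
    simp only [fwd, map_mul, map_inv, Monoid.Coprod.lift_apply_inl, Monoid.Coprod.lift_apply_inr]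
    rw [SemidirectProduct.inl_aut, map_inv]; group
  · intro x hx
    have h1 : back (fwd x) = 1 := by rw [MonoidHom.mem_ker.mp hx, map_one]
    rw [← MonoidHom.comp_apply, hback] at h1
    exact (QuotientGroup.eq_one_iff x).mp h1

end FP

/-- A group is co-hopfian if all its injective endomorphisms are surjective. -/
def CoHopfian (G : Type) [Group G] : Prop :=
  ∀ f : G →* G, Function.Injective f → Function.Surjective f

theorem CoHopfian.of_equiv {G H : Type} [Group G] [Group H] (e : G ≃* H) (h : CoHopfian G) :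
    CoHopfian H := by
  intro f hf
  have h1 := h ((e.symm.toMonoidHom.comp f).comp e.toMonoidHom) (by
    intro x y hxy
    apply e.injective
    apply hf
    apply e.symm.injective
    exact hxy)
  intro y
  obtain ⟨x, hx⟩ := h1 (e.symm y)
  refine ⟨e x, ?_⟩
  apply e.symm.injective
  exact hx

abbrev KK : Type := Multiplicative (ZMod 105)

def κ : (ZMod 105)ˣ →* MulAut KK :=
  (MulAutMultiplicative (ZMod 105)).symm.toMonoidHom.comp
    (DistribMulAction.toAddAut (ZMod 105)ˣ (ZMod 105))

theorem κ_apply (u : (ZMod 105)ˣ) (k : KK) :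
    κ u k = Multiplicative.ofAdd ((u : ZMod 105) * k.toAdd) := rfl

def u3 : (ZMod 105)ˣ := ⟨71, 71, by decide, by decide⟩
def u5 : (ZMod 105)ˣ := ⟨64, 64, by decide, by decide⟩
def u7 : (ZMod 105)ˣ := ⟨76, 76, by decide, by decide⟩


theorem u3_sq : u3 ^ (2 : ℤ) = 1 := by decide
theorem u5_sq : u5 ^ (2 : ℤ) = 1 := by decide
theorem u7_sq : u7 ^ (2 : ℤ) = 1 := by decide

def ρT : T →* (ZMod 105)ˣ where
  toFun t := u3 ^ t.1.toAdd.1 * u5 ^ t.1.toAdd.2 * u7 ^ t.2.toAdd.1
  map_one' := by simp
  map_mul' t t' := by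
    simp only [Prod.fst_mul, Prod.snd_mul, toAdd_mul, Prod.fst_add, Prod.snd_add, zpow_add]
    rw [mul_mul_mul_comm (u3 ^ t.1.toAdd.1), mul_mul_mul_comm (u3 ^ t.1.toAdd.1 * _)]

theorem zpow_mod {u : (ZMod 105)ˣ} (h : u ^ (2 : ℤ) = 1) (m : ℤ) : u ^ m = u ^ (m % 2) := by
  conv_lhs => rw [← Int.mul_ediv_add_emod m 2, zpow_add, zpow_mul, h, one_zpow, one_mul]

theorem ρT_one {t : T} (h : ρT t = 1) : Even t.1.toAdd.1 ∧ Even t.1.toAdd.2 ∧
    Even t.2.toAdd.1 := by
  have h1 : u3 ^ t.1.toAdd.1 * u5 ^ t.1.toAdd.2 * u7 ^ t.2.toAdd.1 = 1 := h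
  rw [zpow_mod u3_sq, zpow_mod u5_sq, zpow_mod u7_sq] at h1
  rw [Int.even_iff, Int.even_iff, Int.even_iff]
  rcases Int.emod_two_eq_zero_or_one t.1.toAdd.1 with a | a <;>
  rcases Int.emod_two_eq_zero_or_one t.1.toAdd.2 with b | b <;>
  rcases Int.emod_two_eq_zero_or_one t.2.toAdd.1 with c | c <;>
  rw [a, b, c] at h1 ⊢ <;> revert h1 <;> decide


noncomputable def ρ : Q →* (ZMod 105)ˣ := ρT.comp rightHom

noncomputable def χ : Q →* MulAut KK := κ.comp ρ

abbrev A : Type := KK ⋊[χ] Q

theorem KK_pow (k : KK) : k ^ 105 = 1 := by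
  apply Multiplicative.toAdd.injective
  rw [toAdd_pow, nsmul_eq_mul, ZMod.natCast_self, zero_mul]
  rfl

theorem κ_inj {u v : (ZMod 105)ˣ} (h : ∀ k, κ u k = κ v k) : u = v := by
  have h1 := h (Multiplicative.ofAdd 1)
  rw [κ_apply, κ_apply] at h1
  have h2 : (u : ZMod 105) * 1 = v * 1 := h1
  rw [mul_one, mul_one] at h2
  exact Units.ext h2

theorem κ_lin (f : KK →* KK) (u : (ZMod 105)ˣ) (k : KK) : f (κ u k) = κ u (f k) := by
  have h1 : ∀ (n : ℕ) (z : KK), Multiplicative.ofAdd ((n : ZMod 105) * z.toAdd) = z ^ n := by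
    intro n z
    apply Multiplicative.toAdd.injective
    rw [toAdd_ofAdd, toAdd_pow, nsmul_eq_mul]
  have h2 : ((u : ZMod 105).val : ZMod 105) = u := ZMod.natCast_zmod_val _
  rw [κ_apply, κ_apply, ← h2, h1, h1, map_pow]

theorem A_coHopfian : CoHopfian A := by
  intro f hf
  -- `KK` is preserved
  have h1 : ∀ k : KK, (f (inl k)).right = 1 := by
    intro k
    apply Q_odd
    have : (f (inl k)) ^ 105 = 1 := by rw [← map_pow, ← map_pow, KK_pow, map_one, map_one]
    have h2 := congrArg (rightHom : A →* Q) this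
    rw [map_pow, map_one] at h2
    exact h2
  have h2 : ∀ k, f (inl k) = inl (f (inl k)).left := by
    intro k
    conv_lhs => rw [← inl_left_mul_inr_right (f (inl k)), h1 k]
    simp
  obtain ⟨g, hg⟩ : ∃ g : KK →* KK, ∀ k, f (inl k) = inl (g k) := by
    refine ⟨⟨⟨fun k => (f (inl k)).left, ?_⟩, ?_⟩, h2⟩
    · simp
    · intro n m
      simp only [map_mul, SemidirectProduct.mul_left, h1, map_one, MulAut.one_apply]
  have hginj : Function.Injective g := by
    intro n m h
    apply inl_injective (φ := χ)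
    apply hf
    rw [hg, hg, h]
  have hgs : Function.Surjective g := Finite.surjective_of_injective hginj
  obtain ⟨θ, hθ⟩ : ∃ θ : Q →* Q, ∀ q, θ q = (f (inr q)).right :=
    ⟨rightHom.comp (f.comp inr), fun _ => rfl⟩
  have hdec : ∀ q, f (inr q) = inl (f (inr q)).left * inr (θ q) := by
    intro q
    rw [hθ, inl_left_mul_inr_right]
  have hθinj : Function.Injective θ := by
    rw [injective_iff_map_eq_one]
    intro q hq
    have h3 := hdec q
    rw [hq, map_one, mul_one] at h3
    obtain ⟨k, hk⟩ := hgs (f (inr q)).left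
    rw [← hk, ← hg] at h3
    have h4 := hf h3
    have h5 := congrArg (rightHom : A →* Q) h4
    simpa using h5
  have hρ : ∀ q, ρ (θ q) = ρ q := by
    intro q
    apply κ_inj
    intro k'
    obtain ⟨k, rfl⟩ := hgs k'
    have h3 : f (inl (χ q k)) = inl (χ (θ q) (g k)) := by
      rw [SemidirectProduct.inl_aut, map_inv, map_mul, map_mul, map_inv, hdec, hg]
      have h4 : (inl (f (inr q)).left : A) * inr (θ q) * inl (g k) *
          (inl (f (inr q)).left * inr (θ q))⁻¹ =
          inl (f (inr q)).left * (inr (θ q) * inl (g k) * (inr (θ q))⁻¹) *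
            (inl (f (inr q)).left)⁻¹ := by group
      rw [h4, ← map_inv inr, ← SemidirectProduct.inl_aut, ← map_inv, ← map_mul, ← map_mul]
      congr 1
      rw [mul_comm (f (inr q)).left, mul_inv_cancel_right]
    rw [hg] at h3
    have h5 := inl_injective h3
    have h6 : g (χ q k) = κ (ρ q) (g k) := κ_lin g (ρ q) k
    rw [h6] at h5
    exact h5.symm
  have hpar : ∀ q : Q, Even ((θ q).right.1.toAdd.1 - q.right.1.toAdd.1) ∧
      Even ((θ q).right.1.toAdd.2 - q.right.1.toAdd.2) ∧
      Even ((θ q).right.2.toAdd.1 - q.right.2.toAdd.1) := by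
    intro q
    have h3 : ρT ((θ q).right * (q.right)⁻¹) = 1 := by
      rw [map_mul, map_inv]
      exact mul_inv_eq_one.mpr (hρ q)
    have := ρT_one h3
    simpa [sub_eq_add_neg] using this
  have hθs := Q_main θ hθinj (fun q => (hpar q).1) (fun q => (hpar q).2.1) (fun q => (hpar q).2.2)
  have hK : ∀ k : KK, (inl k : A) ∈ f.range := by
    intro k
    obtain ⟨k', rfl⟩ := hgs k
    exact ⟨inl k', hg k'⟩
  intro a
  show a ∈ f.range
  rw [← inl_left_mul_inr_right a]
  refine mul_mem (hK _) ?_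
  obtain ⟨q, hq⟩ := hθs a.right
  have h3 : (inr a.right : A) = (inl (f (inr q)).left)⁻¹ * f (inr q) := by
    rw [← hq]
    conv_rhs => rw [hdec q]
    simp
  rw [h3]
  exact mul_mem (inv_mem (hK _)) ⟨_, rfl⟩

end Pool.Agent.R794.Co
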