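import Pool.Agent.R794.Co.Fin

/-!
The Frobenius endomorphism, and the final statements.
-/

namespace Pool.Agent.R794.Co

open SemidirectProduct

noncomputable def fr : R →+* R where
  toFun r := r ^ 2
  map_one' := one_pow 2
  map_mul' r s := mul_pow r s 2
  map_zero' := by simp
  map_add' r s := by
    have := add_self' (r * s)
    linear_combination this

theorem fr_apply (r : R) : fr r = r ^ 2 := rfl

theorem fr_inj {r : R} (h : fr r = 0) : r = 0 := by
  rw [fr_apply] at h
  exact pow_eq_zero_iff (two_ne_zero) |>.mp h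

theorem fr_M : M ≤ M.comap fr.toAddMonoidHom := by
  intro r hr
  rw [AddSubgroup.mem_comap]
  have h1 : NN.pr M r = 0 := (QuotientAddGroup.eq_zero_iff r).mpr hr
  have h2 : NN.pr M (fr r) = 0 := by
    rcases pr_eq_zero.mp h1 with rfl | rfl
    · rw [map_zero, map_zero]
    · rw [map_one]; exact h1
  exact (QuotientAddGroup.eq_zero_iff (fr r)).mp h2

noncomputable def frM : R ⧸ M →+ R ⧸ M := QuotientAddGroup.map M M fr.toAddMonoidHom fr_M

theorem frM_pr (r : R) : frM (NN.pr M r) = NN.pr M (fr r) := rfl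

theorem frM_inj {z : R ⧸ M} (h : frM z = 0) : z = 0 := by
  obtain ⟨r, rfl⟩ := pr_surj z
  rw [frM_pr] at h
  rw [pr_eq_zero]
  rcases pr_eq_zero.mp h with h1 | h1
  · left; exact fr_inj h1
  · right
    have h2 : fr (r - 1) = 0 := by rw [map_sub, h1, map_one, sub_self]
    exact sub_eq_zero.mp (fr_inj h2)

noncomputable def frN : N →* N where
  toFun n := ⟨fr n.a, fr n.b, fr n.c, fr n.d, fr n.e, frM n.f⟩
  map_one' := by apply NN.ext <;> simp
  map_mul' n m := by
    apply NN.ext
    · simp only [NN.mul_a, map_add]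
    · simp only [NN.mul_b, map_add]
    · simp only [NN.mul_c, map_add]
    · simp only [NN.mul_d, map_add, map_mul]
    · simp only [NN.mul_e, map_add, map_mul]
    · simp only [NN.mul_f, map_add, frM_pr, map_mul]

theorem frN_a (n : N) : (frN n).a = fr n.a := rfl
theorem frN_b (n : N) : (frN n).b = fr n.b := rfl
theorem frN_c (n : N) : (frN n).c = fr n.c := rfl
theorem frN_d (n : N) : (frN n).d = fr n.d := rfl
theorem frN_e (n : N) : (frN n).e = fr n.e := rfl
theorem frN_f (n : N) : (frN n).f = frM n.f := rfl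

theorem frN_inj : Function.Injective frN := by
  rw [injective_iff_map_eq_one]
  intro n hn
  apply NN.ext
  · exact fr_inj (congrArg NN.a hn)
  · exact fr_inj (congrArg NN.b hn)
  · exact fr_inj (congrArg NN.c hn)
  · exact fr_inj (congrArg NN.d hn)
  · exact fr_inj (congrArg NN.e hn)
  · exact frM_inj (congrArg NN.f hn)

def sqT : T →* T := powMonoidHom 2

theorem sqT_1 (t : T) : (sqT t).1 = t.1 ^ 2 := rfl
theorem sqT_2 (t : T) : (sqT t).2 = t.2 ^ 2 := rfl

theorem sqT_inj : Function.Injective sqT := by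
  rw [injective_iff_map_eq_one]
  intro t ht
  exact T_pow (by norm_num) ht

theorem fr_act (t : T) (n : N) : frN (act t n) = act (sqT t) (frN n) := by
  have hw : ∀ p : UU, fr (w p : R) = w (p ^ 2) := by
    intro p; rw [map_pow, Units.val_pow_eq_pow_val]; rfl
  have hw' : ∀ p : UU, fr (((w p)⁻¹ : Rˣ) : R) = (((w (p ^ 2))⁻¹ : Rˣ) : R) := by
    intro p
    rw [← map_inv, hw, inv_pow, map_inv]
  apply NN.ext
  · rw [frN_a, act_a, act_a, map_mul, hw, sqT_1, frN_a]
  · rw [frN_b, act_b, act_b, map_mul, map_mul, hw', hw', sqT_1, sqT_2, frN_b]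
  · rw [frN_c, act_c, act_c, map_mul, hw, sqT_2, frN_c]
  · rw [frN_d, act_d, act_d, map_mul, hw', sqT_2, frN_d]
  · rw [frN_e, act_e, act_e, map_mul, hw', sqT_1, frN_e]
  · rw [frN_f, act_f, act_f, frN_f]

noncomputable def FrQ : Q →* Q := SemidirectProduct.map frN sqT (by
  intro t
  apply MonoidHom.ext
  intro n
  exact fr_act t n)

theorem FrQ_left (q : Q) : (FrQ q).left = frN q.left := rfl
theorem FrQ_right (q : Q) : (FrQ q).right = sqT q.right := rfl

theorem FrQ_inj : Function.Injective FrQ := by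
  intro q q' h
  apply SemidirectProduct.ext
  · exact frN_inj (congrArg SemidirectProduct.left h)
  · exact sqT_inj (congrArg SemidirectProduct.right h)

theorem sqT_ne (t : T) : sqT t ≠ (1, gy) := by
  intro h
  have h1 : (t.2 ^ 2) = gy := congrArg Prod.snd h
  have h2 : ((t.2 ^ 2 : UU).toAdd).2 = 1 := by rw [h1]; rfl
  rw [toAdd_pow, Prod.smul_snd, nsmul_eq_mul] at h2
  push_cast at h2
  omega

theorem ρT_sq (t : T) : ρT (sqT t) = 1 := by
  have h : ∀ u : (ZMod 105)ˣ, u ^ (2 : ℤ) = 1 → ∀ m : ℤ, (u ^ m) ^ 2 = 1 := by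
    intro u hu m
    rw [← zpow_natCast, ← zpow_mul, mul_comm, zpow_mul]
    rw [show ((2 : ℕ) : ℤ) = 2 by rfl, hu, one_zpow]
  have e1 : sqT t = t ^ 2 := rfl
  have e2 : ρT t = u3 ^ t.1.toAdd.1 * u5 ^ t.1.toAdd.2 * u7 ^ t.2.toAdd.1 := rfl
  rw [e1, map_pow, e2, mul_pow, mul_pow, h _ u3_sq, h _ u5_sq, h _ u7_sq, one_mul, one_mul]

theorem ρ_FrQ (q : Q) : ρ (FrQ q) = 1 := ρT_sq _

/-! ### The finite-index subgroup of `A` which is not co-hopfian -/

noncomputable def ρA : A →* (ZMod 105)ˣ := ρ.comp rightHom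

theorem χ_one {q : Q} (h : ρ q = 1) (k : KK) : χ q k = k := by
  show κ (ρ q) k = k
  rw [h, map_one]; rfl

noncomputable def FrA : ρA.ker →* ρA.ker where
  toFun a := ⟨⟨a.1.left, FrQ a.1.right⟩, ρ_FrQ _⟩
  map_one' := by
    apply Subtype.ext
    apply SemidirectProduct.ext
    · rfl
    · exact map_one FrQ
  map_mul' a b := by
    apply Subtype.ext
    apply SemidirectProduct.ext
    · show (a.1 * b.1).left = a.1.left * χ (FrQ a.1.right) b.1.left
      rw [SemidirectProduct.mul_left, χ_one (q := a.1.right) a.2, χ_one (ρ_FrQ _)]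
    · exact map_mul FrQ _ _

theorem ker_not_coHopfian : ¬ CoHopfian ρA.ker := by
  intro h
  have h1 := h FrA (by
    intro a b hab
    apply Subtype.ext
    apply SemidirectProduct.ext
    · have h3 : (FrA a).1.left = (FrA b).1.left := by rw [hab]
      exact h3
    · have h3 : (FrA a).1.right = (FrA b).1.right := by rw [hab]
      exact FrQ_inj h3)
  obtain ⟨a, ha⟩ := h1 ⟨inr (inr (1, gy)), by
    show ρT _ = 1
    simp [ρT, gy]⟩
  have h2 := congrArg (fun z => (z.1.right).right) ha
  exact sqT_ne _ h2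

theorem ker_finiteIndex : ρA.ker.FiniteIndex := Subgroup.finiteIndex_ker ρA

/-! ### The finite extension of `A` which is not co-hopfian -/

abbrev FF : Type := KK ⋊[κ] (ZMod 105)ˣ

abbrev GG : Type := FF × Q

theorem GG_not_coHopfian : ¬ CoHopfian GG := by
  intro h
  have h1 := h ((MonoidHom.id FF).prodMap FrQ) (by
    intro a b hab
    apply Prod.ext
    · have h3 : ((MonoidHom.id FF).prodMap FrQ a).1 = ((MonoidHom.id FF).prodMap FrQ b).1 := by
        rw [hab]
      exact h3
    · have h3 : ((MonoidHom.id FF).prodMap FrQ a).2 = ((MonoidHom.id FF).prodMap FrQ b).2 := by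
        rw [hab]
      exact FrQ_inj h3)
  obtain ⟨a, ha⟩ := h1 (1, inr (1, gy))
  have h2 := congrArg (fun z => z.2.right) ha
  exact sqT_ne _ h2

noncomputable def ι : A →* GG :=
  (SemidirectProduct.map (MonoidHom.id KK) ρ (fun _ => rfl)).prod rightHom

theorem ι_inj : Function.Injective ι := by
  intro a b hab
  apply SemidirectProduct.ext
  · exact (congrArg (fun z : GG => z.1.left) hab : a.left = b.left)
  · exact (congrArg (fun z : GG => z.2) hab : a.right = b.right)

theorem range_coHopfian : CoHopfian ι.range :=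
  CoHopfian.of_equiv (MonoidHom.ofInjective ι_inj) A_coHopfian

theorem range_finiteIndex : ι.range.FiniteIndex := by
  let f : GG →* (ZMod 105)ˣ × (ZMod 105)ˣ :=
    (rightHom.comp (MonoidHom.fst FF Q)).prod (ρ.comp (MonoidHom.snd FF Q))
  have h1 : f.ker ≤ ι.range := by
    intro g hg
    have h2 : g.1.right = 1 := congrArg Prod.fst hg
    have h3 : ρ g.2 = 1 := congrArg Prod.snd hg
    refine ⟨⟨g.1.left, g.2⟩, ?_⟩
    apply Prod.ext
    · apply SemidirectProduct.ext
      · rfl
      · show ρ g.2 = g.1.right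
        rw [h2, h3]
    · rfl
  have h2 : f.ker.FiniteIndex := Subgroup.finiteIndex_ker f
  exact Subgroup.finiteIndex_of_le h1

instance : Finite FF := Finite.of_equiv _ (SemidirectProduct.equivProd).symm

theorem A_fp : Group.IsFinitelyPresented A := fp_semidirect χ

theorem GG_fp : Group.IsFinitelyPresented GG := by
  have := fp_semidirect (K' := FF) (H := Q) 1
  exact Group.IsFinitelyPresented.equiv SemidirectProduct.mulEquivProd

end Pool.Agent.R794.Co
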