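import Pool.Agent.R794.Co.Dat

/-!
`Q` is finitely presented.
-/

namespace Pool.Agent.R794.Co

open SemidirectProduct

def relW {G : Type*} [Group G] (px py sx sy a b c d e : G) : List G :=
  [px * py * (py * px)⁻¹, px * sx * (sx * px)⁻¹, px * sy * (sy * px)⁻¹,
   py * sx * (sx * py)⁻¹, py * sy * (sy * py)⁻¹, sx * sy * (sy * sx)⁻¹,
   a * a, b * b, c * c, d * d, e * e,
   sx * a * (a * sx)⁻¹, sy * a * (a * sy)⁻¹,
   (px * sx⁻¹) * b * (b * (px * sx⁻¹))⁻¹, (py * sy⁻¹) * b * (b * (py * sy⁻¹))⁻¹,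
   px * c * (c * px)⁻¹, py * c * (c * py)⁻¹,
   px * d * (d * px)⁻¹, py * d * (d * py)⁻¹,
   sx * e * (e * sx)⁻¹, sy * e * (e * sy)⁻¹,
   a * (px * a * px⁻¹) * ((px * a * px⁻¹) * a)⁻¹,
   py * a * py⁻¹ * (a * (px * a * px⁻¹))⁻¹,
   b * (px⁻¹ * b * px) * ((px⁻¹ * b * px) * b)⁻¹,
   py⁻¹ * b * py * (b * (px⁻¹ * b * px))⁻¹,
   c * (sx * c * sx⁻¹) * ((sx * c * sx⁻¹) * c)⁻¹,
   sy * c * sy⁻¹ * (c * (sx * c * sx⁻¹))⁻¹,
   d * (sx⁻¹ * d * sx) * ((sx⁻¹ * d * sx) * d)⁻¹,
   sy⁻¹ * d * sy * (d * (sx⁻¹ * d * sx))⁻¹,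
   e * (px⁻¹ * e * px) * ((px⁻¹ * e * px) * e)⁻¹,
   py⁻¹ * e * py * (e * (px⁻¹ * e * px))⁻¹,
   a * c * (c * a)⁻¹, a * d * (d * a)⁻¹, b * d * (d * b)⁻¹, b * e * (e * b)⁻¹,
   c * e * (e * c)⁻¹, d * e * (e * d)⁻¹, a * e * (e * a)⁻¹,
   a * b * (d * b * a)⁻¹, b * c * (e * c * b)⁻¹]

theorem rel_iff {G : Type*} [Group G] {px py sx sy a b c d e : G} :
    Rel px py sx sy a b c d e ↔ ∀ r ∈ relW px py sx sy a b c d e, r = 1 := by
  constructor
  · intro h
    simp only [relW, List.forall_mem_cons, mul_inv_eq_one]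
    exact ⟨h.t1, h.t2, h.t3, h.t4, h.t5, h.t6, h.a2, h.b2, h.c2, h.d2, h.e2, h.za1, h.za2,
      h.zb1, h.zb2, h.zc1, h.zc2, h.zd1, h.zd2, h.ze1, h.ze2, h.ax, h.ay, h.bx, h.by', h.cx,
      h.cy, h.dx, h.dy, h.ex, h.ey, h.ac, h.ad, h.bd, h.be, h.ce, h.de, h.ae, h.ab, h.bc,
      fun _ hx => absurd hx List.not_mem_nil⟩
  · intro h
    simp only [relW, List.forall_mem_cons, mul_inv_eq_one] at h
    obtain ⟨h1, h2, h3, h4, h5, h6, h7, h8, h9, h10, h11, h12, h13, h14, h15, h16, h17, h18,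
      h19, h20, h21, h22, h23, h24, h25, h26, h27, h28, h29, h30, h31, h32, h33, h34, h35,
      h36, h37, h38, h39, h40, -⟩ := h
    exact ⟨h1, h2, h3, h4, h5, h6, h7, h8, h9, h10, h11, h12, h13, h14, h15, h16, h17, h18,
      h19, h20, h21, h22, h23, h24, h25, h26, h27, h28, h29, h30, h31, h32, h33, h34, h35,
      h36, h37, h38, h39, h40⟩

theorem map_relW {G H : Type*} [Group G] [Group H] (f : G →* H) (px py sx sy a b c d e : G) :
    (relW px py sx sy a b c d e).map f =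
      relW (f px) (f py) (f sx) (f sy) (f a) (f b) (f c) (f d) (f e) := by
  simp [relW]

theorem Rel.map {G H : Type*} [Group G] [Group H] (f : G →* H) {px py sx sy a b c d e : G}
    (h : Rel px py sx sy a b c d e) :
    Rel (f px) (f py) (f sx) (f sy) (f a) (f b) (f c) (f d) (f e) := by
  rw [rel_iff, ← map_relW]
  intro r hr
  rw [List.mem_map] at hr
  obtain ⟨s, hs, rfl⟩ := hr
  rw [rel_iff.mp h s hs, map_one]

noncomputable def nA : N := ⟨1, 0, 0, 0, 0, 0⟩
noncomputable def nB : N := ⟨0, 1, 0, 0, 0, 0⟩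
noncomputable def nC : N := ⟨0, 0, 1, 0, 0, 0⟩
noncomputable def nD : N := ⟨0, 0, 0, 1, 0, 0⟩
noncomputable def nE : N := ⟨0, 0, 0, 0, 1, 0⟩

theorem w_gx : (w gx : R) = Er 1 0 := rfl
theorem w_gy : (w gy : R) = 1 + Er 1 0 := by
  have := Er_rel 0 0
  rw [Er_zero, zero_add] at this
  exact this

theorem inl_comm {n m : N} (h : n * m = m * n) :
    Commute (inl n : Q) (inl m) := by
  show _ * _ = _ * _
  rw [← map_mul, ← map_mul, h]

theorem inr_comm (t t' : T) : Commute (inr t : Q) (inr t') := by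
  show _ * _ = _ * _
  rw [← map_mul, ← map_mul, mul_comm]

theorem conj_inl (t : T) (n : N) : (inr t : Q) * inl n * (inr t)⁻¹ = inl (act t n) := by
  rw [SemidirectProduct.inl_aut]; simp

theorem conj_inl' (t : T) (n : N) : (inr t : Q)⁻¹ * inl n * (inr t) = inl (act t⁻¹ n) := by
  rw [SemidirectProduct.inl_aut]; simp

theorem inr_inl_comm {t : T} {n : N} (h : act t n = n) :
    Commute (inr t : Q) (inl n) := by
  have := conj_inl t n
  rw [h, mul_inv_eq_iff_eq_mul] at this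
  exact this

theorem two_R : (1 : R) + 1 = 0 := add_self' 1

theorem Q_rel : Rel (inr (gx, 1) : Q) (inr (gy, 1)) (inr (1, gx)) (inr (1, gy)) (inl nA) (inl nB)
    (inl nC) (inl nD) (inl nE) where
  t1 := inr_comm _ _
  t2 := inr_comm _ _
  t3 := inr_comm _ _
  t4 := inr_comm _ _
  t5 := inr_comm _ _
  t6 := inr_comm _ _
  a2 := by
    rw [← map_mul, ← map_one inl]; congr 1
    apply NN.ext <;> simp [nA, two_R]
  b2 := by
    rw [← map_mul, ← map_one inl]; congr 1
    apply NN.ext <;> simp [nB, two_R]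
  c2 := by
    rw [← map_mul, ← map_one inl]; congr 1
    apply NN.ext <;> simp [nC, two_R]
  d2 := by
    rw [← map_mul, ← map_one inl]; congr 1
    apply NN.ext <;> simp [nD, two_R]
  e2 := by
    rw [← map_mul, ← map_one inl]; congr 1
    apply NN.ext <;> simp [nE, two_R]
  za1 := inr_inl_comm (by apply NN.ext <;> simp [nA])
  za2 := inr_inl_comm (by apply NN.ext <;> simp [nA])
  zb1 := by
    rw [← map_inv, ← map_mul]
    exact inr_inl_comm (by apply NN.ext <;> simp [nB])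
  zb2 := by
    rw [← map_inv, ← map_mul]
    exact inr_inl_comm (by apply NN.ext <;> simp [nB])
  zc1 := inr_inl_comm (by apply NN.ext <;> simp [nC])
  zc2 := inr_inl_comm (by apply NN.ext <;> simp [nC])
  zd1 := inr_inl_comm (by apply NN.ext <;> simp [nD])
  zd2 := inr_inl_comm (by apply NN.ext <;> simp [nD])
  ze1 := inr_inl_comm (by apply NN.ext <;> simp [nE])
  ze2 := inr_inl_comm (by apply NN.ext <;> simp [nE])
  ax := by
    rw [conj_inl]
    exact inl_comm (by apply NN.ext <;> simp [nA, add_comm])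
  ay := by
    rw [conj_inl, conj_inl, ← map_mul]; congr 1
    apply NN.ext <;> simp [nA, w_gx, w_gy]
  bx := by
    rw [conj_inl']
    exact inl_comm (by apply NN.ext <;> simp [nB, add_comm])
  by' := by
    rw [conj_inl', conj_inl', ← map_mul]; congr 1
    apply NN.ext <;> simp [nB, w_gx, w_gy]
  cx := by
    rw [conj_inl]
    exact inl_comm (by apply NN.ext <;> simp [nC, add_comm])
  cy := by
    rw [conj_inl, conj_inl, ← map_mul]; congr 1
    apply NN.ext <;> simp [nC, w_gx, w_gy]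
  dx := by
    rw [conj_inl']
    exact inl_comm (by apply NN.ext <;> simp [nD, add_comm])
  dy := by
    rw [conj_inl', conj_inl', ← map_mul]; congr 1
    apply NN.ext <;> simp [nD, w_gx, w_gy]
  ex := by
    rw [conj_inl']
    exact inl_comm (by apply NN.ext <;> simp [nE, add_comm])
  ey := by
    rw [conj_inl', conj_inl', ← map_mul]; congr 1
    apply NN.ext <;> simp [nE, w_gx, w_gy]
  ac := inl_comm (by apply NN.ext <;> simp [nA, nC])
  ad := inl_comm (by apply NN.ext <;> simp [nA, nD])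
  bd := inl_comm (by apply NN.ext <;> simp [nB, nD])
  be := inl_comm (by apply NN.ext <;> simp [nB, nE])
  ce := inl_comm (by apply NN.ext <;> simp [nC, nE])
  de := inl_comm (by apply NN.ext <;> simp [nD, nE])
  ae := inl_comm (by
    have h1 : NN.pr M 1 = 0 := pr_eq_zero.mpr (Or.inr rfl)
    apply NN.ext <;> simp [nA, nE, h1])
  ab := by
    rw [← map_mul, ← map_mul, ← map_mul]; congr 1
    apply NN.ext <;> simp [nA, nB, nD]
  bc := by
    rw [← map_mul, ← map_mul, ← map_mul]; congr 1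
    apply NN.ext <;> simp [nB, nC, nE]

/-- `Q` is generated by the nine elements. -/
theorem Q_gen (H : Subgroup Q) (h1 : (inr (gx, 1) : Q) ∈ H) (h2 : (inr (gy, 1) : Q) ∈ H)
    (h3 : (inr (1, gx) : Q) ∈ H) (h4 : (inr (1, gy) : Q) ∈ H) (ha : (inl nA : Q) ∈ H)
    (hb : (inl nB : Q) ∈ H) (hc : (inl nC : Q) ∈ H) (hd : (inl nD : Q) ∈ H)
    (he : (inl nE : Q) ∈ H) : H = ⊤ := by
  have hT : ∀ t : T, (inr t : Q) ∈ H := by
    intro t
    have e : t = (gx, 1) ^ t.1.toAdd.1 * (gy, 1) ^ t.1.toAdd.2 * ((1, gx) ^ t.2.toAdd.1 *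
        (1, gy) ^ t.2.toAdd.2) := by
      apply Prod.ext
      · simp only [Prod.fst_mul, Prod.pow_fst, one_zpow, mul_one]; exact UU_eq _
      · simp only [Prod.snd_mul, Prod.pow_snd, one_zpow, one_mul]; exact UU_eq _
    rw [e, map_mul, map_mul, map_mul, map_zpow, map_zpow, map_zpow, map_zpow]
    exact mul_mem (mul_mem (zpow_mem h1 _) (zpow_mem h2 _))
      (mul_mem (zpow_mem h3 _) (zpow_mem h4 _))
  have hconj : ∀ (t : T) (n : N), (inl n : Q) ∈ H → (inl (act t n) : Q) ∈ H := by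
    intro t n hn
    rw [← conj_inl]
    exact mul_mem (mul_mem (hT t) hn) (inv_mem (hT t))
  have hA : ∀ r : R, (inl ⟨r, 0, 0, 0, 0, 0⟩ : Q) ∈ H := by
    intro r
    induction r using R_induction with
    | h0 => exact one_mem H
    | hE m n =>
      have := hconj (Multiplicative.ofAdd (m, n), 1) _ ha
      have e : act (Multiplicative.ofAdd (m, n), 1) nA = ⟨Er m n, 0, 0, 0, 0, 0⟩ := by
        apply NN.ext <;> simp [nA, w_val]
      rwa [e] at this
    | hadd r s hr hs =>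
      have := mul_mem hr hs
      rw [← map_mul] at this
      have e : (⟨r, 0, 0, 0, 0, 0⟩ * ⟨s, 0, 0, 0, 0, 0⟩ : N) = ⟨r + s, 0, 0, 0, 0, 0⟩ := by
        apply NN.ext <;> simp
      rwa [e] at this
  have hB : ∀ r : R, (inl ⟨0, r, 0, 0, 0, 0⟩ : Q) ∈ H := by
    intro r
    induction r using R_induction with
    | h0 => exact one_mem H
    | hE m n =>
      have := hconj ((Multiplicative.ofAdd (m, n))⁻¹, 1) _ hb
      have e : act ((Multiplicative.ofAdd (m, n))⁻¹, 1) nB = ⟨0, Er m n, 0, 0, 0, 0⟩ := by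
        apply NN.ext <;> simp [nB, w_val]
      rwa [e] at this
    | hadd r s hr hs =>
      have := mul_mem hr hs
      rw [← map_mul] at this
      have e : (⟨0, r, 0, 0, 0, 0⟩ * ⟨0, s, 0, 0, 0, 0⟩ : N) = ⟨0, r + s, 0, 0, 0, 0⟩ := by
        apply NN.ext <;> simp
      rwa [e] at this
  have hC : ∀ r : R, (inl ⟨0, 0, r, 0, 0, 0⟩ : Q) ∈ H := by
    intro r
    induction r using R_induction with
    | h0 => exact one_mem H
    | hE m n =>
      have := hconj (1, Multiplicative.ofAdd (m, n)) _ hc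
      have e : act (1, Multiplicative.ofAdd (m, n)) nC = ⟨0, 0, Er m n, 0, 0, 0⟩ := by
        apply NN.ext <;> simp [nC, w_val]
      rwa [e] at this
    | hadd r s hr hs =>
      have := mul_mem hr hs
      rw [← map_mul] at this
      have e : (⟨0, 0, r, 0, 0, 0⟩ * ⟨0, 0, s, 0, 0, 0⟩ : N) = ⟨0, 0, r + s, 0, 0, 0⟩ := by
        apply NN.ext <;> simp
      rwa [e] at this
  have hD : ∀ r : R, (inl ⟨0, 0, 0, r, 0, 0⟩ : Q) ∈ H := by
    intro r
    induction r using R_induction with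
    | h0 => exact one_mem H
    | hE m n =>
      have := hconj (1, (Multiplicative.ofAdd (m, n))⁻¹) _ hd
      have e : act (1, (Multiplicative.ofAdd (m, n))⁻¹) nD = ⟨0, 0, 0, Er m n, 0, 0⟩ := by
        apply NN.ext <;> simp [nD, w_val]
      rwa [e] at this
    | hadd r s hr hs =>
      have := mul_mem hr hs
      rw [← map_mul] at this
      have e : (⟨0, 0, 0, r, 0, 0⟩ * ⟨0, 0, 0, s, 0, 0⟩ : N) = ⟨0, 0, 0, r + s, 0, 0⟩ := by
        apply NN.ext <;> simp
      rwa [e] at this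
  have hE : ∀ r : R, (inl ⟨0, 0, 0, 0, r, 0⟩ : Q) ∈ H := by
    intro r
    induction r using R_induction with
    | h0 => exact one_mem H
    | hE m n =>
      have := hconj ((Multiplicative.ofAdd (m, n))⁻¹, 1) _ he
      have e : act ((Multiplicative.ofAdd (m, n))⁻¹, 1) nE = ⟨0, 0, 0, 0, Er m n, 0⟩ := by
        apply NN.ext <;> simp [nE, w_val]
      rwa [e] at this
    | hadd r s hr hs =>
      have := mul_mem hr hs
      rw [← map_mul] at this
      have e : (⟨0, 0, 0, 0, r, 0⟩ * ⟨0, 0, 0, 0, s, 0⟩ : N) = ⟨0, 0, 0, 0, r + s, 0⟩ := by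
        apply NN.ext <;> simp
      rwa [e] at this
  have hF : ∀ r : R, (inl ⟨0, 0, 0, 0, 0, NN.pr M r⟩ : Q) ∈ H := by
    intro r
    have := mul_mem (mul_mem (mul_mem (hA r) (hE 1)) (inv_mem (hA r))) (inv_mem (hE 1))
    rw [← map_inv, ← map_inv, ← map_mul, ← map_mul, ← map_mul] at this
    have e : (⟨r, 0, 0, 0, 0, 0⟩ * ⟨0, 0, 0, 0, 1, 0⟩ * (⟨r, 0, 0, 0, 0, 0⟩)⁻¹ *
        (⟨0, 0, 0, 0, 1, 0⟩)⁻¹ : N) = ⟨0, 0, 0, 0, 0, NN.pr M r⟩ := by
      apply NN.ext <;> simp
    rwa [e] at this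
  have hN : ∀ n : N, (inl n : Q) ∈ H := by
    intro n
    obtain ⟨f, hf⟩ := pr_surj n.f
    have := mul_mem (mul_mem (mul_mem (mul_mem (mul_mem (hC n.c) (hB n.b)) (hE n.e)) (hA n.a))
      (hD n.d)) (hF f)
    simp only [← map_mul] at this
    convert this using 2
    apply NN.ext <;> simp [hf]
  rw [eq_top_iff]
  intro q _
  have : q = inl q.left * inr q.right := (SemidirectProduct.inl_left_mul_inr_right q).symm
  rw [this]
  exact mul_mem (hN _) (hT _)

instance Q_fp : Group.IsFinitelyPresented Q := by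
  let F := FreeGroup (Fin 9)
  let g : Fin 9 → F := FreeGroup.of
  let W : List F := relW (g 0) (g 1) (g 2) (g 3) (g 4) (g 5) (g 6) (g 7) (g 8)
  let S : Set F := {r | r ∈ W}
  have hS : Finite S := List.finite_toSet W
  let v : Fin 9 → Q := ![inr (gx, 1), inr (gy, 1), inr (1, gx), inr (1, gy), inl nA, inl nB,
    inl nC, inl nD, inl nE]
  have hv : ∀ r ∈ S, FreeGroup.lift v r = 1 := by
    intro r hr
    have h1 : FreeGroup.lift v r ∈ W.map (FreeGroup.lift v) := List.mem_map_of_mem hr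
    rw [map_relW] at h1
    simp only [g, FreeGroup.lift_apply_of] at h1
    exact rel_iff.mp Q_rel _ h1
  let Φ : PresentedGroup S →* Q := PresentedGroup.toGroup hv
  have hΦ : ∀ i, Φ (PresentedGroup.of i) = v i := fun i => PresentedGroup.toGroup.of hv
  have hP : Rel (PresentedGroup.of 0 : PresentedGroup S) (PresentedGroup.of 1)
      (PresentedGroup.of 2) (PresentedGroup.of 3) (PresentedGroup.of 4) (PresentedGroup.of 5)
      (PresentedGroup.of 6) (PresentedGroup.of 7) (PresentedGroup.of 8) := by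
    rw [rel_iff]
    intro r hr
    have h1 := map_relW (PresentedGroup.mk S) (g 0) (g 1) (g 2) (g 3) (g 4) (g 5) (g 6) (g 7)
      (g 8)
    have h2 : r ∈ W.map (PresentedGroup.mk S) := by
      rw [h1]; exact hr
    rw [List.mem_map] at h2
    obtain ⟨s, hs, rfl⟩ := h2
    exact PresentedGroup.one_of_mem hs
  obtain ⟨Ψ, e0, e1, e2, e3, e4, e5, e6, e7, e8⟩ := hP.exists_hom
  have hcomp : Ψ.comp Φ = MonoidHom.id _ := by
    apply PresentedGroup.ext
    intro i
    rw [MonoidHom.comp_apply, hΦ]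
    fin_cases i
    · exact e0
    · exact e1
    · exact e2
    · exact e3
    · exact e4
    · exact e5
    · exact e6
    · exact e7
    · exact e8
  have hinj : Function.Injective Φ := by
    intro x y hxy
    have := congrArg Ψ hxy
    rw [← MonoidHom.comp_apply, ← MonoidHom.comp_apply, hcomp] at this
    exact this
  have hsurj : Function.Surjective Φ := by
    rw [← MonoidHom.range_eq_top]
    exact Q_gen _ ⟨_, hΦ 0⟩ ⟨_, hΦ 1⟩ ⟨_, hΦ 2⟩ ⟨_, hΦ 3⟩ ⟨_, hΦ 4⟩ ⟨_, hΦ 5⟩ ⟨_, hΦ 6⟩ ⟨_, hΦ 7⟩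
      ⟨_, hΦ 8⟩
  exact Group.IsFinitelyPresented.equiv (MulEquiv.ofBijective Φ ⟨hinj, hsurj⟩)

end Pool.Agent.R794.Co
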