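import Pool.Agent.R794.Co.Univ

/-!
The group of upper unitriangular `4 x 4` matrices over a commutative ring `S`, modulo a
subgroup `M` of the upper right corner; and the action of pairs of units.
-/

namespace Pool.Agent.R794.Co

variable {S : Type} [CommRing S]

@[ext]
structure NN (M : AddSubgroup S) where
  a : S
  b : S
  c : S
  d : S
  e : S
  f : S ⧸ M

namespace NN

variable {M : AddSubgroup S}

def pr (M : AddSubgroup S) : S →+ S ⧸ M := QuotientAddGroup.mk' M

instance : Mul (NN M) := ⟨fun g h =>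
  ⟨g.a + h.a, g.b + h.b, g.c + h.c, g.d + h.d + g.a * h.b, g.e + h.e + g.b * h.c,
    g.f + h.f + pr M (g.a * h.e + g.d * h.c)⟩⟩

instance : One (NN M) := ⟨⟨0, 0, 0, 0, 0, 0⟩⟩

instance : Inv (NN M) := ⟨fun g =>
  ⟨-g.a, -g.b, -g.c, -g.d + g.a * g.b, -g.e + g.b * g.c,
    -g.f + pr M (g.a * g.e + g.d * g.c - g.a * g.b * g.c)⟩⟩

@[simp] theorem mul_a (g h : NN M) : (g * h).a = g.a + h.a := rfl
@[simp] theorem mul_b (g h : NN M) : (g * h).b = g.b + h.b := rfl
@[simp] theorem mul_c (g h : NN M) : (g * h).c = g.c + h.c := rfl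
@[simp] theorem mul_d (g h : NN M) : (g * h).d = g.d + h.d + g.a * h.b := rfl
@[simp] theorem mul_e (g h : NN M) : (g * h).e = g.e + h.e + g.b * h.c := rfl
@[simp] theorem mul_f (g h : NN M) : (g * h).f = g.f + h.f + pr M (g.a * h.e + g.d * h.c) := rfl
@[simp] theorem one_a : (1 : NN M).a = 0 := rfl
@[simp] theorem one_b : (1 : NN M).b = 0 := rfl
@[simp] theorem one_c : (1 : NN M).c = 0 := rfl
@[simp] theorem one_d : (1 : NN M).d = 0 := rfl
@[simp] theorem one_e : (1 : NN M).e = 0 := rfl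
@[simp] theorem one_f : (1 : NN M).f = 0 := rfl
@[simp] theorem inv_a (g : NN M) : (g⁻¹).a = -g.a := rfl
@[simp] theorem inv_b (g : NN M) : (g⁻¹).b = -g.b := rfl
@[simp] theorem inv_c (g : NN M) : (g⁻¹).c = -g.c := rfl
@[simp] theorem inv_d (g : NN M) : (g⁻¹).d = -g.d + g.a * g.b := rfl
@[simp] theorem inv_e (g : NN M) : (g⁻¹).e = -g.e + g.b * g.c := rfl
@[simp] theorem inv_f (g : NN M) :
    (g⁻¹).f = -g.f + pr M (g.a * g.e + g.d * g.c - g.a * g.b * g.c) := rfl

theorem assoc_aux (u v t : S ⧸ M) (r s z q : S) (h : r + s = z + q) :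
    u + v + pr M r + t + pr M s = u + (v + t + pr M z) + pr M q := by
  have h2 : pr M r + pr M s = pr M z + pr M q := by rw [← map_add, ← map_add, h]
  calc u + v + pr M r + t + pr M s = u + v + t + (pr M r + pr M s) := by abel
    _ = u + v + t + (pr M z + pr M q) := by rw [h2]
    _ = _ := by abel

theorem inv_aux (u : S ⧸ M) (r s : S) (h : r + s = 0) : -u + pr M r + u + pr M s = 0 := by
  have h2 : pr M r + pr M s = 0 := by rw [← map_add, h, map_zero]
  calc -u + pr M r + u + pr M s = pr M r + pr M s := by abel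
    _ = 0 := h2

instance : Group (NN M) := Group.ofLeftAxioms
  (by
    intro g h k
    apply NN.ext
    · simp only [mul_a]; ring
    · simp only [mul_b]; ring
    · simp only [mul_c]; ring
    · simp only [mul_d, mul_a, mul_b]; ring
    · simp only [mul_e, mul_b, mul_c]; ring
    · simp only [mul_f, mul_a, mul_c, mul_d, mul_e]
      apply assoc_aux
      ring)
  (by
    intro g
    apply NN.ext <;> simp)
  (by
    intro g
    apply NN.ext
    · simp
    · simp
    · simp
    · simp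
    · simp
    · simp only [mul_f, inv_f, inv_a, inv_d, one_f]
      apply inv_aux
      ring)

/-- the action of a pair of units (conjugation by a diagonal matrix). -/
def actE (p s : Sˣ) : NN M ≃* NN M where
  toFun g := ⟨p * g.a, ((p⁻¹ : Sˣ) : S) * ((s⁻¹ : Sˣ) : S) * g.b, s * g.c,
    ((s⁻¹ : Sˣ) : S) * g.d, ((p⁻¹ : Sˣ) : S) * g.e, g.f⟩
  invFun g := ⟨((p⁻¹ : Sˣ) : S) * g.a, p * s * g.b, ((s⁻¹ : Sˣ) : S) * g.c, s * g.d,
    p * g.e, g.f⟩
  left_inv g := by
    have hp : (p : S) * ((p⁻¹ : Sˣ) : S) = 1 := Units.mul_inv p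
    have hs : (s : S) * ((s⁻¹ : Sˣ) : S) = 1 := Units.mul_inv s
    generalize ((p⁻¹ : Sˣ) : S) = p' at *
    generalize ((s⁻¹ : Sˣ) : S) = s' at *
    apply NN.ext
    · simp only; linear_combination g.a * hp
    · simp only; linear_combination g.b * (s * s') * hp + g.b * hs
    · simp only; linear_combination g.c * hs
    · simp only; linear_combination g.d * hs
    · simp only; linear_combination g.e * hp
    · rfl
  right_inv g := by
    have hp : (p : S) * ((p⁻¹ : Sˣ) : S) = 1 := Units.mul_inv p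
    have hs : (s : S) * ((s⁻¹ : Sˣ) : S) = 1 := Units.mul_inv s
    generalize ((p⁻¹ : Sˣ) : S) = p' at *
    generalize ((s⁻¹ : Sˣ) : S) = s' at *
    apply NN.ext
    · simp only; linear_combination g.a * hp
    · simp only; linear_combination g.b * (s * s') * hp + g.b * hs
    · simp only; linear_combination g.c * hs
    · simp only; linear_combination g.d * hs
    · simp only; linear_combination g.e * hp
    · rfl
  map_mul' g h := by
    have hp : (p : S) * ((p⁻¹ : Sˣ) : S) = 1 := Units.mul_inv p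
    have hs : (s : S) * ((s⁻¹ : Sˣ) : S) = 1 := Units.mul_inv s
    generalize ((p⁻¹ : Sˣ) : S) = p' at *
    generalize ((s⁻¹ : Sˣ) : S) = s' at *
    apply NN.ext
    · simp only [NN.mul_a]; ring
    · simp only [NN.mul_b]; ring
    · simp only [NN.mul_c]; ring
    · simp only [NN.mul_d]
      linear_combination (-(s' * g.a * h.b)) * hp
    · simp only [NN.mul_e]
      linear_combination (-(p' * g.b * h.c)) * hs
    · simp only [NN.mul_f]
      congr 2
      linear_combination (-(g.a * h.e)) * hp - (g.d * h.c) * hs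

def actU : Sˣ × Sˣ →* MulAut (NN M) where
  toFun t := actE t.1 t.2
  map_one' := by
    apply MulEquiv.ext
    intro g
    apply NN.ext <;> simp [actE]
  map_mul' t t' := by
    apply MulEquiv.ext
    intro g
    rw [MulAut.mul_apply]
    apply NN.ext
    · simp [actE, mul_assoc]
    · simp only [actE, MulEquiv.coe_mk, Equiv.coe_fn_mk, Prod.fst_mul, Prod.snd_mul, mul_inv,
        Units.val_mul]; ring
    · simp [actE, mul_assoc]
    · simp only [actE, MulEquiv.coe_mk, Equiv.coe_fn_mk, Prod.fst_mul, Prod.snd_mul, mul_inv,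
        Units.val_mul]; ring
    · simp only [actE, MulEquiv.coe_mk, Equiv.coe_fn_mk, Prod.fst_mul, Prod.snd_mul, mul_inv,
        Units.val_mul]; ring
    · rfl

@[simp] theorem actU_a (t : Sˣ × Sˣ) (g : NN M) : (actU t g).a = t.1 * g.a := rfl
@[simp] theorem actU_b (t : Sˣ × Sˣ) (g : NN M) :
    (actU t g).b = ((t.1⁻¹ : Sˣ) : S) * ((t.2⁻¹ : Sˣ) : S) * g.b := rfl
@[simp] theorem actU_c (t : Sˣ × Sˣ) (g : NN M) : (actU t g).c = t.2 * g.c := rfl
@[simp] theorem actU_d (t : Sˣ × Sˣ) (g : NN M) : (actU t g).d = ((t.2⁻¹ : Sˣ) : S) * g.d := rfl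
@[simp] theorem actU_e (t : Sˣ × Sˣ) (g : NN M) : (actU t g).e = ((t.1⁻¹ : Sˣ) : S) * g.e := rfl
@[simp] theorem actU_f (t : Sˣ × Sˣ) (g : NN M) : (actU t g).f = g.f := rfl

end NN

/-- the additive subgroup `{0, 1}` of `R`. -/
noncomputable def M : AddSubgroup R := AddSubgroup.zmultiples 1

theorem pr_eq_zero {r : R} : NN.pr M r = 0 ↔ r = 0 ∨ r = 1 := by
  have h1 : NN.pr M r = 0 ↔ r ∈ M := QuotientAddGroup.eq_zero_iff r
  have h11 : (2 : ℤ) • (1 : R) = 0 := by rw [two_zsmul]; exact add_self' 1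
  rw [h1, M, AddSubgroup.mem_zmultiples_iff]
  constructor
  · rintro ⟨k, rfl⟩
    rcases Int.even_or_odd' k with ⟨j, rfl | rfl⟩
    · left
      rw [mul_comm, mul_zsmul, h11, smul_zero]
    · right
      rw [add_zsmul, mul_comm, mul_zsmul, h11, smul_zero, zero_add, one_zsmul]
  · rintro (rfl | rfl)
    · exact ⟨0, by simp⟩
    · exact ⟨1, by simp⟩

theorem pr_surj (z : R ⧸ M) : ∃ r, NN.pr M r = z := QuotientAddGroup.mk'_surjective M z

/-- `Z^2`. -/
abbrev UU : Type := Multiplicative (ℤ × ℤ)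

noncomputable def w : UU →* Rˣ where
  toFun p := ⟨Er p.toAdd.1 p.toAdd.2, Er (-p.toAdd.1) (-p.toAdd.2),
    by rw [Er_mul]; simp [Er_zero], by rw [Er_mul]; simp [Er_zero]⟩
  map_one' := by
    apply Units.ext
    exact Er_zero
  map_mul' p q := by
    apply Units.ext
    exact (Er_mul _ _ _ _).symm

theorem w_val (p : UU) : (w p : R) = Er p.toAdd.1 p.toAdd.2 := rfl

theorem w_inj : Function.Injective w := by
  rw [injective_iff_map_eq_one]
  intro p hp
  have h1 : Er p.toAdd.1 p.toAdd.2 = 1 := by rw [← w_val, hp]; rfl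
  have h2 : E p.toAdd.1 p.toAdd.2 = 1 := congrArg Subtype.val h1
  obtain ⟨h3, h4⟩ := E_eq_one h2
  have : p.toAdd = 0 := Prod.ext h3 h4
  exact this

abbrev N : Type := NN M

abbrev T : Type := UU × UU

noncomputable def act : T →* MulAut N := NN.actU.comp (w.prodMap w)

@[simp] theorem act_a (t : T) (g : N) : (act t g).a = w t.1 * g.a := rfl
@[simp] theorem act_b (t : T) (g : N) :
    (act t g).b = (((w t.1)⁻¹ : Rˣ) : R) * (((w t.2)⁻¹ : Rˣ) : R) * g.b := rfl
@[simp] theorem act_c (t : T) (g : N) : (act t g).c = w t.2 * g.c := rfl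
@[simp] theorem act_d (t : T) (g : N) : (act t g).d = (((w t.2)⁻¹ : Rˣ) : R) * g.d := rfl
@[simp] theorem act_e (t : T) (g : N) : (act t g).e = (((w t.1)⁻¹ : Rˣ) : R) * g.e := rfl
@[simp] theorem act_f (t : T) (g : N) : (act t g).f = g.f := rfl

abbrev Q : Type := N ⋊[act] T

end Pool.Agent.R794.Co
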