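import Pool.Agent.R794.Co.Fp

/-!
Injective endomorphisms of `Q` which preserve three parity characters of the torus are
surjective.
-/

namespace Pool.Agent.R794.Co

open SemidirectProduct

theorem N_mul_self (n : N) : n * n = ⟨0, 0, 0, n.a * n.b, n.b * n.c,
    NN.pr M (n.a * n.e + n.d * n.c)⟩ := by
  have hf : n.f + n.f = 0 := by
    obtain ⟨f, hf⟩ := pr_surj n.f
    rw [← hf, ← map_add, add_self', map_zero]
  apply NN.ext <;> simp [add_self', hf]

theorem N_pow4 (n : N) : n ^ 4 = 1 := by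
  have h1 : n ^ 4 = (n * n) * (n * n) := by rw [pow_succ, pow_succ, pow_succ, pow_one]; group
  rw [h1, N_mul_self (n * n), N_mul_self n]
  apply NN.ext <;> simp

theorem UU_pow {k : ℕ} (hk : k ≠ 0) {p : UU} (h : p ^ k = 1) : p = 1 := by
  have h1 : k • p.toAdd = 0 := by
    have := congrArg Multiplicative.toAdd h
    simpa using this
  have h2 : p.toAdd = 0 := by
    rcases smul_eq_zero.mp h1 with h | h
    · exact absurd h hk
    · exact h
  exact h2

theorem T_pow {k : ℕ} (hk : k ≠ 0) {t : T} (h : t ^ k = 1) : t = 1 :=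
  Prod.ext (UU_pow hk (congrArg Prod.fst h)) (UU_pow hk (congrArg Prod.snd h))

theorem Q_pow {k : ℕ} (hk : k ≠ 0) {q : Q} (h : q ^ k = 1) : q.right = 1 := by
  have := congrArg (rightHom : Q →* T) h
  rw [map_pow, map_one] at this
  exact T_pow hk this

/-- an element of odd order dividing 105 is trivial. -/
theorem Q_odd {q : Q} (h : q ^ 105 = 1) : q = 1 := by
  have h1 := Q_pow (by norm_num) h
  have h2 : q = inl q.left := by
    conv_lhs => rw [← inl_left_mul_inr_right q, h1]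
    simp
  rw [h2, ← map_pow, ← map_one (inl : N →* Q)] at h
  have h3 := inl_injective h
  have h4 : q.left ^ 105 = q.left := by
    rw [show 105 = 4 * 26 + 1 by norm_num, pow_add, pow_mul, N_pow4, one_pow, one_mul, pow_one]
  rw [h4] at h3
  rw [h2, h3, map_one]

theorem conj_a (m n : N) : (m * n * m⁻¹).a = n.a := by simp
theorem conj_b (m n : N) : (m * n * m⁻¹).b = n.b := by simp
theorem conj_c (m n : N) : (m * n * m⁻¹).c = n.c := by simp

theorem comm_ab (g h : N) (h1 : g.b = 0) (h2 : g.c = 0) (h3 : h.a = 0) (h4 : h.c = 0) :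
    ∃ f, g * h * g⁻¹ * h⁻¹ = ⟨0, 0, 0, g.a * h.b, 0, f⟩ := by
  refine ⟨(g * h * g⁻¹ * h⁻¹).f, ?_⟩
  apply NN.ext
  · simp [h3]
  · simp [h1]
  · simp
  · simp [h1, h3]; ring
  · simp [h2, h4]
  · rfl

theorem comm_bc (g h : N) (h1 : g.a = 0) (h2 : g.c = 0) (h3 : h.a = 0) (h4 : h.b = 0) :
    ∃ f, g * h * g⁻¹ * h⁻¹ = ⟨0, 0, 0, 0, g.b * h.c, f⟩ := by
  refine ⟨(g * h * g⁻¹ * h⁻¹).f, ?_⟩
  apply NN.ext
  · simp
  · simp
  · simp
  · simp [h1, h3]
  · simp [h2, h4]; ring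
  · rfl

theorem comm_dc (δ : R) (f : R ⧸ M) (k : N) (h3 : k.a = 0) (h4 : k.b = 0) :
    (⟨0, 0, 0, δ, 0, f⟩ : N) * k * (⟨0, 0, 0, δ, 0, f⟩ : N)⁻¹ * k⁻¹ =
      ⟨0, 0, 0, 0, 0, NN.pr M (δ * k.c)⟩ := by
  have e : (⟨0, 0, 0, δ, 0, f⟩ : N) * k =
      ⟨0, 0, 0, 0, 0, NN.pr M (δ * k.c)⟩ * (k * ⟨0, 0, 0, δ, 0, f⟩) := by
    apply NN.ext
    · simp
    · simp
    · simp
    · simp [h3, add_comm]
    · simp [h4]
    · simp only [NN.mul_f, NN.mul_c, NN.mul_e, h3]
      simp only [zero_mul, zero_add, mul_zero, add_zero, map_zero]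
      abel
  rw [e]; group

noncomputable def xa (r : R) : N := ⟨r, 0, 0, 0, 0, 0⟩
noncomputable def xb (r : R) : N := ⟨0, r, 0, 0, 0, 0⟩
noncomputable def xc (r : R) : N := ⟨0, 0, r, 0, 0, 0⟩
noncomputable def xd (r : R) : N := ⟨0, 0, 0, r, 0, 0⟩
noncomputable def xe (r : R) : N := ⟨0, 0, 0, 0, r, 0⟩
noncomputable def xf (r : R ⧸ M) : N := ⟨0, 0, 0, 0, 0, r⟩

theorem xa_add (r s : R) : xa (r + s) = xa r * xa s := by apply NN.ext <;> simp [xa]
theorem xb_add (r s : R) : xb (r + s) = xb r * xb s := by apply NN.ext <;> simp [xb]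
theorem xc_add (r s : R) : xc (r + s) = xc r * xc s := by apply NN.ext <;> simp [xc]
theorem xf_zero : xf 0 = 1 := rfl

theorem comm3 (g h k : N) (h1 : g.b = 0) (h2 : g.c = 0) (h3 : h.a = 0) (h4 : h.c = 0)
    (h5 : k.a = 0) (h6 : k.b = 0) :
    (g * h * g⁻¹ * h⁻¹) * k * (g * h * g⁻¹ * h⁻¹)⁻¹ * k⁻¹ =
      xf (NN.pr M (g.a * h.b * k.c)) := by
  obtain ⟨f, hf⟩ := comm_ab g h h1 h2 h3 h4
  rw [hf, comm_dc _ _ _ h5 h6]
  rfl

/-- the data extracted from an endomorphism. -/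
theorem Q_main (θ : Q →* Q) (hinj : Function.Injective θ)
    (p1 : ∀ q : Q, Even ((θ q).right.1.toAdd.1 - q.right.1.toAdd.1))
    (p2 : ∀ q : Q, Even ((θ q).right.1.toAdd.2 - q.right.1.toAdd.2))
    (p3 : ∀ q : Q, Even ((θ q).right.2.toAdd.1 - q.right.2.toAdd.1)) :
    Function.Surjective θ := by
  -- restriction to `N`
  have hright : ∀ n : N, (θ (inl n)).right = 1 := by
    intro n
    apply Q_pow (k := 4) (by norm_num)
    rw [← map_pow, ← map_pow, N_pow4, map_one, map_one]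
  have hθN : ∀ n : N, θ (inl n) = inl (θ (inl n)).left := by
    intro n
    conv_lhs => rw [← inl_left_mul_inr_right (θ (inl n)), hright n]
    simp
  obtain ⟨θN, hN⟩ : ∃ θN : N →* N, ∀ n, θ (inl n) = inl (θN n) := by
    refine ⟨⟨⟨fun n => (θ (inl n)).left, ?_⟩, ?_⟩, hθN⟩
    · simp
    · intro n m
      simp only [map_mul, SemidirectProduct.mul_left, hright, map_one, MulAut.one_apply]
  have hNinj : Function.Injective θN := by
    intro n m h
    apply inl_injective (φ := act)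
    apply hinj
    rw [hN, hN, h]
  obtain ⟨τ, hτ⟩ : ∃ τ : T →* T, ∀ t, τ t = (θ (inr t)).right :=
    ⟨rightHom.comp (θ.comp inr), fun _ => rfl⟩
  have hdec : ∀ t, θ (inr t) = inl (θ (inr t)).left * inr (τ t) := by
    intro t
    rw [hτ, inl_left_mul_inr_right]
  have q1 : ∀ t : T, Even ((τ t).1.toAdd.1 - t.1.toAdd.1) := fun t => by
    rw [hτ]; exact p1 (inr t)
  have q2 : ∀ t : T, Even ((τ t).1.toAdd.2 - t.1.toAdd.2) := fun t => by
    rw [hτ]; exact p2 (inr t)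
  have q3 : ∀ t : T, Even ((τ t).2.toAdd.1 - t.2.toAdd.1) := fun t => by
    rw [hτ]; exact p3 (inr t)
  have heq : ∀ (t : T) (n : N), ∃ m : N, θN (act t n) = m * act (τ t) (θN n) * m⁻¹ := by
    intro t n
    refine ⟨(θ (inr t)).left, ?_⟩
    apply inl_injective (φ := act)
    rw [← hN, ← conj_inl, map_mul, map_mul, map_inv, hdec, hN]
    simp only [map_mul, map_inv, ← conj_inl]
    simp
    group
  have ea : ∀ t n, (θN (act t n)).a = w (τ t).1 * (θN n).a := by
    intro t n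
    obtain ⟨m, hm⟩ := heq t n
    rw [hm, conj_a, act_a]
  have eb : ∀ t n, (θN (act t n)).b =
      (((w (τ t).1)⁻¹ : Rˣ) : R) * (((w (τ t).2)⁻¹ : Rˣ) : R) * (θN n).b := by
    intro t n
    obtain ⟨m, hm⟩ := heq t n
    rw [hm, conj_b, act_b]
  have ec : ∀ t n, (θN (act t n)).c = w (τ t).2 * (θN n).c := by
    intro t n
    obtain ⟨m, hm⟩ := heq t n
    rw [hm, conj_c, act_c]
  -- fixed elements
  have fa : ∀ t n, act t n = n → (θN n).a ≠ 0 → (τ t).1 = 1 := by
    intro t n h1 h2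
    have h3 := ea t n
    rw [h1] at h3
    apply w_inj
    apply Units.ext
    rw [map_one, Units.val_one]
    exact mul_right_cancel₀ h2 (by rw [← h3, one_mul])
  have fc : ∀ t n, act t n = n → (θN n).c ≠ 0 → (τ t).2 = 1 := by
    intro t n h1 h2
    have h3 := ec t n
    rw [h1] at h3
    apply w_inj
    apply Units.ext
    rw [map_one, Units.val_one]
    exact mul_right_cancel₀ h2 (by rw [← h3, one_mul])
  have fb : ∀ t n, act t n = n → (θN n).b ≠ 0 → (τ t).1 * (τ t).2 = 1 := by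
    intro t n h1 h2
    have h3 := eb t n
    rw [h1] at h3
    have h4 : (((w (τ t).1)⁻¹ : Rˣ) : R) * (((w (τ t).2)⁻¹ : Rˣ) : R) = 1 :=
      mul_right_cancel₀ h2 (by rw [← h3, one_mul])
    rw [← Units.val_mul, ← mul_inv, ← map_mul, ← map_inv] at h4
    have h5 : ((τ t).1 * (τ t).2)⁻¹ = 1 := by
      apply w_inj
      apply Units.ext
      rw [map_one, Units.val_one]
      exact h4
    exact inv_eq_one.mp h5
  have g1 : (Multiplicative.toAdd gx).1 = 1 := rfl
  have g0 : (Multiplicative.toAdd (1 : UU)).1 = 0 := rfl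
  have gi : (Multiplicative.toAdd (gx⁻¹ : UU)).1 = -1 := rfl
  have one1 : ∀ {p : UU}, p = 1 → p.toAdd.1 = 0 := by
    rintro p rfl; rfl
  have mul1 : ∀ {p s : UU}, p * s = 1 → p.toAdd.1 + s.toAdd.1 = 0 := by
    intro p s h
    have := one1 h
    rwa [toAdd_mul, Prod.fst_add] at this
  have fixa : ∀ (s : UU) r, act (1, s) (xa r) = xa r := by
    intro s r; apply NN.ext <;> simp [xa]
  have fixc : ∀ (s : UU) r, act (s, 1) (xc r) = xc r := by
    intro s r; apply NN.ext <;> simp [xc]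
  have fixb : ∀ (s : UU) r, act (s⁻¹, s) (xb r) = xb r := by
    intro s r; apply NN.ext <;> simp [xb]
  have ab0 : ∀ r, (θN (xa r)).b = 0 := by
    intro r
    by_contra h
    have h2 := mul1 (fb (1, gx) (xa r) (fixa _ _) h)
    obtain ⟨k, hk⟩ := q1 (1, gx)
    obtain ⟨l, hl⟩ := q3 (1, gx)
    simp only [g0, g1] at hk hl
    omega
  have ac0 : ∀ r, (θN (xa r)).c = 0 := by
    intro r
    by_contra h
    have h2 := one1 (fc (1, gx) (xa r) (fixa _ _) h)
    obtain ⟨l, hl⟩ := q3 (1, gx)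
    simp only [g1] at hl
    omega
  have ba0 : ∀ r, (θN (xb r)).a = 0 := by
    intro r
    by_contra h
    have h2 := one1 (fa (gx⁻¹, gx) (xb r) (fixb _ _) h)
    obtain ⟨k, hk⟩ := q1 (gx⁻¹, gx)
    simp only [gi] at hk
    omega
  have bc0 : ∀ r, (θN (xb r)).c = 0 := by
    intro r
    by_contra h
    have h2 := one1 (fc (gx⁻¹, gx) (xb r) (fixb _ _) h)
    obtain ⟨k, hk⟩ := q3 (gx⁻¹, gx)
    simp only [g1] at hk
    omega
  have ca0 : ∀ r, (θN (xc r)).a = 0 := by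
    intro r
    by_contra h
    have h2 := one1 (fa (gx, 1) (xc r) (fixc _ _) h)
    obtain ⟨k, hk⟩ := q1 (gx, 1)
    simp only [g1] at hk
    omega
  have cb0 : ∀ r, (θN (xc r)).b = 0 := by
    intro r
    by_contra h
    have h2 := mul1 (fb (gx, 1) (xc r) (fixc _ _) h)
    obtain ⟨k, hk⟩ := q1 (gx, 1)
    obtain ⟨l, hl⟩ := q3 (gx, 1)
    simp only [g0, g1] at hk hl
    omega
  -- the three additive maps
  obtain ⟨α, hα⟩ : ∃ α : R → R, ∀ r, (θN (xa r)).a = α r := ⟨_, fun _ => rfl⟩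
  obtain ⟨β, hβ⟩ : ∃ β : R → R, ∀ r, (θN (xb r)).b = β r := ⟨_, fun _ => rfl⟩
  obtain ⟨γ, hγ⟩ : ∃ γ : R → R, ∀ r, (θN (xc r)).c = γ r := ⟨_, fun _ => rfl⟩
  have αadd : ∀ r s, α (r + s) = α r + α s := by
    intro r s; rw [← hα, xa_add, map_mul, NN.mul_a, hα, hα]
  have βadd : ∀ r s, β (r + s) = β r + β s := by
    intro r s; rw [← hβ, xb_add, map_mul, NN.mul_b, hβ, hβ]
  have γadd : ∀ r s, γ (r + s) = γ r + γ s := by
    intro r s; rw [← hγ, xc_add, map_mul, NN.mul_c, hγ, hγ]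
  have hcomm : ∀ r s t, θN (xf (NN.pr M (r * s * t))) = xf (NN.pr M (α r * β s * γ t)) := by
    intro r s t
    have e1 := comm3 (xa r) (xb s) (xc t) rfl rfl rfl rfl rfl rfl
    have e2 := comm3 (θN (xa r)) (θN (xb s)) (θN (xc t)) (ab0 r) (ac0 r) (ba0 s) (bc0 s)
      (ca0 t) (cb0 t)
    rw [hα, hβ, hγ] at e2
    rw [← e2]
    have e3 : (xf (NN.pr M (r * s * t)) : N) = xf (NN.pr M ((xa r).a * (xb s).b * (xc t).c)) :=
      rfl
    rw [e3, ← e1]
    simp only [map_mul, map_inv]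
  have hne : α (Er 1 0) * β 1 * γ 1 ≠ 0 := by
    intro h0
    have h1 := hcomm (Er 1 0) 1 1
    rw [h0, map_zero, mul_one, mul_one, xf_zero, ← map_one θN] at h1
    have h2 := hNinj h1
    have h3 : NN.pr M (Er 1 0) = 0 := congrArg NN.f h2
    rcases pr_eq_zero.mp h3 with h4 | h4
    · exact Er_ne 1 0 h4
    · have := (E_eq_one (congrArg Subtype.val h4 : E 1 0 = 1)).1
      omega
  have hαx : α (Er 1 0) ≠ 0 := fun h => hne (by rw [h]; ring)
  have hβ1 : β 1 ≠ 0 := fun h => hne (by rw [h]; ring)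
  have hγ1 : γ 1 ≠ 0 := fun h => hne (by rw [h]; ring)
  -- equivariance
  have αeq : ∀ t r, α (w t.1 * r) = w (τ t).1 * α r := by
    intro t r
    have := ea t (xa r)
    rw [hα] at this
    rw [← this, ← hα]
    congr 2
    apply NN.ext <;> simp [xa]
  have γeq : ∀ t r, γ (w t.2 * r) = w (τ t).2 * γ r := by
    intro t r
    have := ec t (xc r)
    rw [hγ] at this
    rw [← this, ← hγ]
    congr 2
    apply NN.ext <;> simp [xc]
  have τ1 : ∀ s : UU, (τ (1, s)).1 = 1 := by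
    intro s
    exact fa (1, s) (xa (Er 1 0)) (fixa _ _) (by rw [hα]; exact hαx)
  have τ2 : ∀ p : UU, (τ (p, 1)).2 = 1 := by
    intro s
    exact fc (s, 1) (xc 1) (fixc _ _) (by rw [hγ]; exact hγ1)
  have τ3 : ∀ s : UU, (τ (s⁻¹, s)).1 * (τ (s⁻¹, s)).2 = 1 := by
    intro s
    exact fb (s⁻¹, s) (xb 1) (fixb _ _) (by rw [hβ]; exact hβ1)
  have hα1 : α 1 ≠ 0 := by
    intro h
    have := αeq (gx, 1) 1
    rw [h, mul_zero, mul_one] at this
    exact hαx this
  -- the unit equation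
  have hu : (w (τ (gy, 1)).1 : R) = 1 + w (τ (gx, 1)).1 := by
    have h1 := αeq (gy, 1) 1
    have h2 := αeq (gx, 1) 1
    rw [mul_one] at h1 h2
    have h3 : α (w gy) = α 1 + α (w gx) := by rw [← αadd]; exact congrArg α w_gy
    apply mul_right_cancel₀ hα1
    rw [← h1, h3, h2]; ring
  have hτx : (τ (gx, 1)).1 = gx ∧ (τ (gy, 1)).1 = gy := by
    obtain ⟨a', ha'⟩ := q1 (gx, 1)
    obtain ⟨b', hb'⟩ := q2 (gx, 1)
    obtain ⟨c', hc'⟩ := q1 (gy, 1)
    obtain ⟨d', hd'⟩ := q2 (gy, 1)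
    have i1 : (Multiplicative.toAdd gx).2 = 0 := rfl
    have i2 : (Multiplicative.toAdd gy).1 = 0 := rfl
    have i3 : (Multiplicative.toAdd gy).2 = 1 := rfl
    simp only [g1, i1, i2, i3] at ha' hb' hc' hd'
    have h1 : (τ (gx, 1)).1.toAdd.1 = 2 * a' + 1 := by omega
    have h2 : (τ (gx, 1)).1.toAdd.2 = 2 * b' := by omega
    have h3 : (τ (gy, 1)).1.toAdd.1 = 2 * c' := by omega
    have h4 : (τ (gy, 1)).1.toAdd.2 = 2 * d' + 1 := by omega
    rw [w_val, w_val, h1, h2, h3, h4] at hu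
    obtain ⟨k1, k2, k3, k4⟩ := unit_eq (congrArg Subtype.val hu)
    constructor
    · apply Multiplicative.toAdd.injective
      apply Prod.ext
      · rw [h1, k1]; rfl
      · rw [h2, k2]; rfl
    · apply Multiplicative.toAdd.injective
      apply Prod.ext
      · rw [h3, k3]; rfl
      · rw [h4, k4]; rfl
  have τ4 : ∀ p : UU, (τ (p, 1)).1 = p := by
    intro p
    have h1 : (p, (1 : UU)) = (gx, 1) ^ p.toAdd.1 * (gy, 1) ^ p.toAdd.2 := by
      apply Prod.ext
      · simp only [Prod.fst_mul, Prod.pow_fst]; exact UU_eq _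
      · simp only [Prod.snd_mul, Prod.pow_snd, one_zpow, one_mul]
    rw [h1, map_mul, map_zpow, map_zpow, Prod.fst_mul, Prod.pow_fst, Prod.pow_fst, hτx.1, hτx.2]
    exact (UU_eq p).symm
  have τ5 : ∀ s : UU, (τ (1, s)).2 = s := by
    intro s
    have h1 : ((s⁻¹, s) : T) = (s⁻¹, 1) * (1, s) := by simp
    have h2 := τ3 s
    rw [h1, map_mul, Prod.fst_mul, Prod.snd_mul, τ1, τ2, τ4, mul_one, one_mul] at h2
    exact (inv_mul_eq_one.mp h2).symm
  have τid : ∀ t : T, τ t = t := by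
    intro t
    have h1 : t = (t.1, 1) * (1, t.2) := by simp
    conv_lhs => rw [h1, map_mul]
    apply Prod.ext
    · rw [Prod.fst_mul, τ1, τ4, mul_one]
    · rw [Prod.snd_mul, τ2, τ5, one_mul]
  -- the scalings
  have αlin : ∀ r, α r = r * α 1 := by
    intro r
    induction r using R_induction with
    | h0 => have := αadd 0 0; rw [add_zero] at this; rw [zero_mul]; exact left_eq_add.mp this
    | hE m n =>
      have := αeq (Multiplicative.ofAdd (m, n), 1) 1
      rw [τid, mul_one] at this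
      exact this
    | hadd r s hr hs => rw [αadd, hr, hs, add_mul]
  have γlin : ∀ r, γ r = r * γ 1 := by
    intro r
    induction r using R_induction with
    | h0 => have := γadd 0 0; rw [add_zero] at this; rw [zero_mul]; exact left_eq_add.mp this
    | hE m n =>
      have := γeq (1, Multiplicative.ofAdd (m, n)) 1
      rw [τid, mul_one] at this
      exact this
    | hadd r s hr hs => rw [γadd, hr, hs, add_mul]
  have βlin : ∀ r, β r = r * β 1 := by
    intro r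
    induction r using R_induction with
    | h0 => have := βadd 0 0; rw [add_zero] at this; rw [zero_mul]; exact left_eq_add.mp this
    | hE m n =>
      have h1 := eb ((Multiplicative.ofAdd (m, n))⁻¹, 1) (xb 1)
      rw [τid, hβ] at h1
      have h2 : act ((Multiplicative.ofAdd (m, n))⁻¹, 1) (xb 1) = xb (Er m n) := by
        apply NN.ext <;> simp [xb, w_val]
      rw [h2, hβ] at h1
      rw [h1]
      simp [w_val]
    | hadd r s hr hs => rw [βadd, hr, hs, add_mul]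
  have hprod : α 1 * β 1 * γ 1 = 1 := by
    have h1 := hcomm 1 1 1
    have h2 : NN.pr M (1 * 1 * 1) = 0 := by
      rw [mul_one, mul_one]; exact pr_eq_zero.mpr (Or.inr rfl)
    rw [h2, xf_zero, map_one] at h1
    have h3 : NN.pr M (α 1 * β 1 * γ 1) = 0 := (congrArg NN.f h1).symm
    rcases pr_eq_zero.mp h3 with h4 | h4
    · exact absurd h4 (mul_ne_zero (mul_ne_zero hα1 hβ1) hγ1)
    · exact h4
  -- surjectivity
  have sf : ∀ z, xf z ∈ θN.range := by
    intro z
    obtain ⟨r, rfl⟩ := pr_surj z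
    refine ⟨xf (NN.pr M (r * 1 * 1)), ?_⟩
    rw [hcomm, αlin r]
    congr 2
    linear_combination r * hprod
  have sd : ∀ r, xd r ∈ θN.range := by
    intro r
    obtain ⟨f, hf⟩ := comm_ab (θN (xa (r * γ 1))) (θN (xb 1)) (ab0 _) (ac0 _) (ba0 _) (bc0 _)
    have h1 : (⟨0, 0, 0, (θN (xa (r * γ 1))).a * (θN (xb 1)).b, 0, f⟩ : N) ∈ θN.range := by
      rw [← hf]
      exact ⟨xa (r * γ 1) * xb 1 * (xa (r * γ 1))⁻¹ * (xb 1)⁻¹, by simp only [map_mul, map_inv]⟩
    have h2 : (xd r : N) = (⟨0, 0, 0, (θN (xa (r * γ 1))).a * (θN (xb 1)).b, 0, f⟩ : N) *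
        xf (-f) := by
      rw [hα, hβ, αlin]
      apply NN.ext
      · simp [xd, xf]
      · simp [xd, xf]
      · simp [xd, xf]
      · simp only [xd, xf, NN.mul_d, mul_zero, add_zero]
        linear_combination (-r) * hprod
      · simp [xd, xf]
      · simp [xd, xf]
    rw [h2]
    exact mul_mem h1 (sf _)
  have se : ∀ r, xe r ∈ θN.range := by
    intro r
    obtain ⟨f, hf⟩ := comm_bc (θN (xb (r * α 1))) (θN (xc 1)) (ba0 _) (bc0 _) (ca0 _) (cb0 _)
    have h1 : (⟨0, 0, 0, 0, (θN (xb (r * α 1))).b * (θN (xc 1)).c, f⟩ : N) ∈ θN.range := by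
      rw [← hf]
      exact ⟨xb (r * α 1) * xc 1 * (xb (r * α 1))⁻¹ * (xc 1)⁻¹, by simp only [map_mul, map_inv]⟩
    have h2 : (xe r : N) = (⟨0, 0, 0, 0, (θN (xb (r * α 1))).b * (θN (xc 1)).c, f⟩ : N) *
        xf (-f) := by
      rw [hβ, hγ, βlin]
      apply NN.ext
      · simp [xe, xf]
      · simp [xe, xf]
      · simp [xe, xf]
      · simp [xe, xf]
      · simp only [xe, xf, NN.mul_e, mul_zero, add_zero]
        linear_combination (-r) * hprod
      · simp [xe, xf]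
    rw [h2]
    exact mul_mem h1 (sf _)
  have s0 : ∀ d e f, (⟨0, 0, 0, d, e, f⟩ : N) ∈ θN.range := by
    intro d e f
    have : (⟨0, 0, 0, d, e, f⟩ : N) = xd d * xe e * xf f := by
      apply NN.ext <;> simp [xd, xe, xf]
    rw [this]
    exact mul_mem (mul_mem (sd _) (se _)) (sf _)
  have s1 : ∀ n m : N, m ∈ θN.range → n.a = m.a → n.b = m.b → n.c = m.c → n ∈ θN.range := by
    intro n m hm h1 h2 h3
    have h4 : n * m⁻¹ = ⟨0, 0, 0, (n * m⁻¹).d, (n * m⁻¹).e, (n * m⁻¹).f⟩ := by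
      apply NN.ext <;> simp [h1, h2, h3]
    have h5 : n * m⁻¹ ∈ θN.range := by rw [h4]; exact s0 _ _ _
    have := mul_mem h5 hm
    rwa [inv_mul_cancel_right] at this
  have sN : ∀ n : N, n ∈ θN.range := by
    intro n
    apply s1 n (θN (xa (n.a * β 1 * γ 1)) * θN (xb (n.b * α 1 * γ 1)) *
      θN (xc (n.c * α 1 * β 1)))
    · exact mul_mem (mul_mem ⟨_, rfl⟩ ⟨_, rfl⟩) ⟨_, rfl⟩
    · rw [NN.mul_a, NN.mul_a, ba0, ca0, hα, αlin]
      linear_combination (-n.a) * hprod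
    · rw [NN.mul_b, NN.mul_b, ab0, cb0, hβ, βlin]
      linear_combination (-n.b) * hprod
    · rw [NN.mul_c, NN.mul_c, ac0, bc0, hγ, γlin]
      linear_combination (-n.c) * hprod
  have sQ : ∀ n : N, (inl n : Q) ∈ θ.range := by
    intro n
    obtain ⟨m, rfl⟩ := sN n
    exact ⟨inl m, hN m⟩
  intro q
  show q ∈ θ.range
  rw [← inl_left_mul_inr_right q]
  refine mul_mem (sQ _) ?_
  have h1 := hdec q.right
  rw [τid] at h1
  have h2 : (inr q.right : Q) = (inl (θ (inr q.right)).left)⁻¹ * θ (inr q.right) := by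
    conv_rhs => rw [h1]
    simp
  rw [h2]
  exact mul_mem (inv_mem (sQ _)) ⟨_, rfl⟩

end Pool.Agent.R794.Co
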