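import Mathlib

/-!
The ring `R = F_2[x, 1/x, 1/(1+x)]` inside the rational function field, its units
`x^m (1+x)^n`, a unit equation, and a universal property of its additive group.
-/

namespace Pool.Agent.R794.Co

open Polynomial

abbrev K : Type := RatFunc (ZMod 2)

noncomputable def x : K := RatFunc.X
noncomputable def y : K := 1 + x

theorem x_ne : x ≠ 0 := RatFunc.X_ne_zero

theorem y_eq : y = algebraMap (ZMod 2)[X] K (1 + X) := by
  simp [y, x]

theorem poly_y_ne : (1 + X : (ZMod 2)[X]) ≠ 0 := by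
  intro h
  have := congrArg (fun p => Polynomial.coeff p 0) h
  simp at this

theorem y_ne : y ≠ 0 := by
  rw [y_eq]
  intro h
  exact poly_y_ne ((RatFunc.algebraMap_injective (ZMod 2)) (by simpa using h))

theorem two_eq : (2 : K) = 0 := by
  have : ((2 : ℕ) : K) = 0 := CharP.cast_eq_zero K 2
  simpa using this

theorem add_self (r : K) : r + r = 0 := by
  rw [← two_mul, two_eq, zero_mul]

noncomputable def E (m n : ℤ) : K := x ^ m * y ^ n

theorem E_ne (m n : ℤ) : E m n ≠ 0 := mul_ne_zero (zpow_ne_zero _ x_ne) (zpow_ne_zero _ y_ne)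

theorem E_mul (m n m' n' : ℤ) : E m n * E m' n' = E (m + m') (n + n') := by
  simp only [E]
  rw [zpow_add₀ x_ne, zpow_add₀ y_ne]
  ring

theorem E_zero : E 0 0 = 1 := by simp [E]

theorem E_rel (m n : ℤ) : E m (n + 1) = E m n + E (m + 1) n := by
  simp only [E]
  rw [zpow_add₀ x_ne, zpow_add₀ y_ne, zpow_one, zpow_one]
  simp only [y]
  ring

theorem deg_x : RatFunc.intDegree x = 1 := RatFunc.intDegree_X

theorem not_sq (z : K) : z ^ 2 ≠ x := by
  intro h
  have hz : z ≠ 0 := by
    rintro rfl
    exact x_ne (by simpa using h.symm)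
  have := congrArg RatFunc.intDegree h
  rw [sq, RatFunc.intDegree_mul hz hz, deg_x] at this
  omega

theorem deg_y : RatFunc.intDegree y = 1 := by
  rw [y_eq, RatFunc.intDegree_polynomial]
  have : (1 + X : (ZMod 2)[X]).natDegree = 1 := by
    rw [add_comm, ← C_1, natDegree_X_add_C]
  rw [this]; rfl

theorem deg_pow {z : K} (hz : z ≠ 0) (n : ℕ) :
    RatFunc.intDegree (z ^ n) = n * RatFunc.intDegree z := by
  induction n with
  | zero => simp
  | succ k ih => rw [pow_succ, RatFunc.intDegree_mul (pow_ne_zero _ hz) hz, ih]; push_cast; ring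

theorem pow_eq {k : ℕ} (h : x ^ k = y ^ k) : k = 0 := by
  rw [y_eq] at h
  have hx : x = algebraMap (ZMod 2)[X] K X := by simp [x]
  rw [hx, ← map_pow, ← map_pow] at h
  have h2 := RatFunc.algebraMap_injective (ZMod 2) h
  have h3 := congrArg (Polynomial.eval 0) h2
  simp only [eval_pow, eval_X, eval_add, eval_one, add_zero, one_pow] at h3
  by_contra hk
  rw [zero_pow hk] at h3
  exact zero_ne_one h3

theorem E_eq_one {m n : ℤ} (h : E m n = 1) : m = 0 ∧ n = 0 := by
  have key : ∀ k l : ℕ, ∀ e e' : ℤ, (e = 1 ∨ e = -1) → (e' = 1 ∨ e' = -1) → 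
      E (e * k) (e' * l) = 1 → k = 0 ∧ l = 0 := by
    intro k l e e' he he' h
    have hxk : x ^ k ≠ 0 := pow_ne_zero _ x_ne
    have hyl : y ^ l ≠ 0 := pow_ne_zero _ y_ne
    have dx : RatFunc.intDegree (x ^ k) = k := by rw [deg_pow x_ne, deg_x, mul_one]
    have dy : RatFunc.intDegree (y ^ l) = l := by rw [deg_pow y_ne, deg_y, mul_one]
    rcases he with rfl | rfl <;> rcases he' with rfl | rfl
    · simp only [E, one_mul, zpow_natCast] at h
      have := congrArg RatFunc.intDegree h
      rw [RatFunc.intDegree_mul hxk hyl, dx, dy, RatFunc.intDegree_one] at this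
      omega
    · simp only [E, one_mul, zpow_natCast, neg_mul, zpow_neg] at h
      have h' : x ^ k = y ^ l := by
        field_simp at h
        exact h
      have := congrArg RatFunc.intDegree h'
      rw [dx, dy] at this
      have hkl : k = l := by exact_mod_cast this
      subst hkl
      exact ⟨pow_eq h', pow_eq h'⟩
    · simp only [E, one_mul, zpow_natCast, neg_mul, zpow_neg] at h
      have h' : x ^ k = y ^ l := by
        field_simp at h
        exact h.symm
      have := congrArg RatFunc.intDegree h'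
      rw [dx, dy] at this
      have hkl : k = l := by exact_mod_cast this
      subst hkl
      exact ⟨pow_eq h', pow_eq h'⟩
    · simp only [E, one_mul, zpow_natCast, neg_mul, zpow_neg] at h
      have h' : x ^ k * y ^ l = 1 := by
        field_simp at h
        exact h.symm
      have := congrArg RatFunc.intDegree h'
      rw [RatFunc.intDegree_mul hxk hyl, dx, dy, RatFunc.intDegree_one] at this
      omega
  have hm : ∃ (e : ℤ), (e = 1 ∨ e = -1) ∧ m = e * m.natAbs := by
    rcases Int.natAbs_eq m with h | h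
    · exact ⟨1, Or.inl rfl, by omega⟩
    · exact ⟨-1, Or.inr rfl, by omega⟩
  have hn : ∃ (e : ℤ), (e = 1 ∨ e = -1) ∧ n = e * n.natAbs := by
    rcases Int.natAbs_eq n with h | h
    · exact ⟨1, Or.inl rfl, by omega⟩
    · exact ⟨-1, Or.inr rfl, by omega⟩
  obtain ⟨e, he, hme⟩ := hm
  obtain ⟨e', he', hne⟩ := hn
  rw [hme, hne] at h
  have := key _ _ e e' he he' h
  constructor
  · exact Int.natAbs_eq_zero.mp this.1
  · exact Int.natAbs_eq_zero.mp this.2

/-- The unit equation. -/
theorem unit_eq {a b c d : ℤ} (h : E (2 * c) (2 * d + 1) = 1 + E (2 * a + 1) (2 * b)) :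
    a = 0 ∧ b = 0 ∧ c = 0 ∧ d = 0 := by
  set s : K := E a b with hs
  set r : K := E c d with hr
  have h1 : E (2 * a + 1) (2 * b) = x * s ^ 2 := by
    rw [hs, sq, E_mul]
    have : x = E 1 0 := by simp [E]
    rw [this, E_mul]; congr 1 <;> ring
  have h2 : E (2 * c) (2 * d + 1) = y * r ^ 2 := by
    rw [hr, sq, E_mul]
    have : y = E 0 1 := by simp [E]
    rw [this, E_mul]; congr 1 <;> ring
  rw [h1, h2] at h
  have h3 : x * (s + r) ^ 2 = (r + 1) ^ 2 := by
    have e1 : y = 1 + x := rfl
    rw [e1] at h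
    have t := two_eq
    linear_combination h + (x * s * r - r + x * s ^ 2 - r ^ 2) * t
  have h4 : s + r = 0 := by
    by_contra hne
    apply not_sq ((r + 1) / (s + r))
    rw [div_pow, ← h3]
    field_simp
  have h5 : r + 1 = 0 := by
    rw [h4] at h3
    have : (r + 1) ^ 2 = 0 := by rw [← h3]; ring
    exact pow_eq_zero_iff (two_ne_zero) |>.mp this
  have hr1 : r = 1 := by
    have := add_self (1 : K)
    linear_combination h5 - this
  have hs1 : s = 1 := by
    have := add_self (1 : K)
    rw [hr1] at h4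
    linear_combination h4 - this
  obtain ⟨h6, h7⟩ := E_eq_one (hs ▸ hs1 : E a b = 1)
  obtain ⟨h8, h9⟩ := E_eq_one (hr ▸ hr1 : E c d = 1)
  exact ⟨h6, h7, h8, h9⟩

end Pool.Agent.R794.Co
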