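import Pool.Agent.R794.Co.Baum

/-!
Root subgroups normalised by the torus, and their commutation relations.
-/

namespace Pool.Agent.R794.Co

def gx : UU := Multiplicative.ofAdd (1, 0)
def gy : UU := Multiplicative.ofAdd (0, 1)

theorem UU_eq (p : UU) : p = gx ^ p.toAdd.1 * gy ^ p.toAdd.2 := by
  apply Multiplicative.toAdd.injective
  apply Prod.ext <;> simp [gx, gy]

theorem UU_eq' (m n : ℤ) : (Multiplicative.ofAdd (m, n) : UU) = gx ^ m * gy ^ n :=
  UU_eq _

structure Root {G : Type*} [Group G] (τ : T →* G) (q : T →* UU) (X : R → G) : Prop where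
  add : ∀ r s, X (r + s) = X r * X s
  conj : ∀ t r, τ t * X r * (τ t)⁻¹ = X (w (q t) * r)

variable {G : Type*} [Group G]

namespace Root

variable {τ : T →* G} {q q' q'' : T →* UU} {X Y Z : R → G}

theorem zero (h : Root τ q X) : X 0 = 1 := by
  have := h.add 0 0
  rw [add_zero] at this
  exact mul_eq_left.mp this.symm

theorem sq (h : Root τ q X) (r : R) : X r * X r = 1 := by
  rw [← h.add, add_self', h.zero]

theorem inv (h : Root τ q X) (r : R) : (X r)⁻¹ = X r := by
  rw [inv_eq_iff_mul_eq_one, h.sq]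

theorem at_unit (h : Root τ q X) (t : T) : X (w (q t)) = τ t * X 1 * (τ t)⁻¹ := by
  rw [h.conj, mul_one]

theorem exists_root' (τ : T →* G) (q : T →* UU) (κ : UU →* T) (hκ : ∀ p, q (κ p) = p) (g : G)
    (hg : g * g = 1) (hZ : ∀ t, q t = 1 → Commute (τ t) g)
    (hgx : Commute g (τ (κ gx) * g * (τ (κ gx))⁻¹))
    (hgy : τ (κ gy) * g * (τ (κ gy))⁻¹ = g * (τ (κ gx) * g * (τ (κ gx))⁻¹)) :
    ∃ X, Root τ q X ∧ X 1 = g := by
  have hpp : Commute (τ (κ gx)) (τ (κ gy)) := by
    show _ * _ = _ * _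
    rw [← map_mul, ← map_mul, ← map_mul, ← map_mul, mul_comm]
  obtain ⟨X, hX1, hX2⟩ := exists_root hpp hg hgx hgy
  have hval : ∀ p : UU, X (w p) = τ (κ p) * g * (τ (κ p))⁻¹ := by
    intro p
    rw [w_val, hX2, cj]
    conv_rhs => rw [UU_eq p]
    simp only [map_mul, map_zpow]
  refine ⟨X, ⟨hX1, ?_⟩, ?_⟩
  · intro t r
    have h0 : X 0 = 1 := by
      have := hX1 0 0
      rw [add_zero] at this
      exact mul_eq_left.mp this.symm
    induction r using R_induction with
    | h0 => rw [mul_zero, h0]; group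
    | hE m n =>
      have e1 : Er m n = w (Multiplicative.ofAdd (m, n)) := rfl
      rw [e1]
      set p : UU := Multiplicative.ofAdd (m, n) with hp
      rw [hval, ← Units.val_mul, ← map_mul w, hval]
      have e2 : Commute (τ (t * κ p * (κ (q t * p))⁻¹)) g := by
        apply hZ
        rw [map_mul, map_mul, map_inv, hκ, hκ]
        rw [mul_inv_cancel]
      have e3 : τ (t * κ p) = τ (κ (q t * p)) * τ (t * κ p * (κ (q t * p))⁻¹) := by
        rw [← map_mul]; congr 1
        rw [mul_comm (t * κ p) _, mul_inv_cancel_left]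
      calc τ t * (τ (κ p) * g * (τ (κ p))⁻¹) * (τ t)⁻¹
          = τ (t * κ p) * g * (τ (t * κ p))⁻¹ := by rw [map_mul]; group
        _ = τ (κ (q t * p)) * (τ (t * κ p * (κ (q t * p))⁻¹) * g *
              (τ (t * κ p * (κ (q t * p))⁻¹))⁻¹) * (τ (κ (q t * p)))⁻¹ := by
              rw [e3]; group
        _ = _ := by rw [e2.eq]; group
    | hadd r s hr hs =>
      rw [hX1, mul_add, hX1, ← hr, ← hs]; group
  · have := hval 1
    simpa using this

theorem comm (hX : Root τ q X) (hY : Root τ q' Y) (hind : ∀ p p', ∃ t, q t = p ∧ q' t = p')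
    (h : Commute (X 1) (Y 1)) (r s : R) : Commute (X r) (Y s) := by
  induction r using R_induction with
  | h0 => rw [hX.zero]; exact Commute.one_left _
  | hE m n =>
    induction s using R_induction with
    | h0 => rw [hY.zero]; exact Commute.one_right _
    | hE m' n' =>
      obtain ⟨t, ht1, ht2⟩ := hind (Multiplicative.ofAdd (m, n)) (Multiplicative.ofAdd (m', n'))
      have e1 : Er m n = w (q t) := by rw [ht1]; rfl
      have e2 : Er m' n' = w (q' t) := by rw [ht2]; rfl
      rw [e1, e2, hX.at_unit, hY.at_unit]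
      have := h.map (MulAut.conj (τ t)).toMonoidHom
      simpa only [MulEquiv.toMonoidHom_eq_coe, MonoidHom.coe_coe, MulAut.conj_apply] using this
    | hadd a b ha hb => rw [hY.add]; exact ha.mul_right hb
  | hadd a b ha hb => rw [hX.add]; exact ha.mul_left hb

theorem mul (hX : Root τ q X) (hY : Root τ q' Y) (hZ : Root τ q'' Z)
    (hind : ∀ p p', ∃ t, q t = p ∧ q' t = p') (hq : ∀ t, q'' t = q t * q' t)
    (hXZ : ∀ r s, Commute (X r) (Z s)) (hYZ : ∀ r s, Commute (Y r) (Z s))
    (h : X 1 * Y 1 = Z 1 * Y 1 * X 1) (r s : R) : X r * Y s = Z (r * s) * Y s * X r := by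
  induction r using R_induction with
  | h0 => rw [hX.zero, zero_mul, hZ.zero]; group
  | hE m n =>
    induction s using R_induction with
    | h0 => rw [hY.zero, mul_zero, hZ.zero]; group
    | hE m' n' =>
      obtain ⟨t, ht1, ht2⟩ := hind (Multiplicative.ofAdd (m, n)) (Multiplicative.ofAdd (m', n'))
      have e1 : Er m n = w (q t) := by rw [ht1]; rfl
      have e2 : Er m' n' = w (q' t) := by rw [ht2]; rfl
      have e3 : Er m n * Er m' n' = w (q'' t) := by
        rw [e1, e2, hq, map_mul, Units.val_mul]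
      rw [e3, e1, e2, hX.at_unit, hY.at_unit, hZ.at_unit]
      calc τ t * X 1 * (τ t)⁻¹ * (τ t * Y 1 * (τ t)⁻¹) = τ t * (X 1 * Y 1) * (τ t)⁻¹ := by group
        _ = _ := by rw [h]; group
    | hadd a b ha hb =>
      rw [hY.add, ← mul_assoc, ha, mul_add, hZ.add]
      calc Z (Er m n * a) * Y a * X (Er m n) * Y b
          = Z (Er m n * a) * Y a * (X (Er m n) * Y b) := by group
        _ = Z (Er m n * a) * (Y a * Z (Er m n * b)) * (Y b * X (Er m n)) := by rw [hb]; group
        _ = _ := by rw [(hYZ a _).eq]; group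
  | hadd a b ha hb =>
    rw [hX.add, add_mul, hZ.add, mul_assoc, hb]
    calc X a * (Z (b * s) * Y s * X b) = (X a * Z (b * s)) * Y s * X b := by group
      _ = Z (b * s) * (X a * Y s) * X b := by rw [(hXZ a _).eq]; group
      _ = (Z (b * s) * Z (a * s)) * Y s * X a * X b := by rw [ha]; group
      _ = (Z (a * s) * Z (b * s)) * Y s * X a * X b := by rw [← hZ.add, ← hZ.add, add_comm]
      _ = _ := by group

end Root

end Pool.Agent.R794.Co
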