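import Pool.Agent.R794.Co.Final

/-!
The examples are solvable.
-/

namespace Pool.Agent.R794.Co

open SemidirectProduct

def nTop : N →* Multiplicative (R × R × R) where
  toFun n := Multiplicative.ofAdd (n.a, n.b, n.c)
  map_one' := rfl
  map_mul' _ _ := rfl

noncomputable def nBot : Multiplicative (R × R × (R ⧸ M)) →* N where
  toFun z := ⟨0, 0, 0, z.toAdd.1, z.toAdd.2.1, z.toAdd.2.2⟩
  map_one' := rfl
  map_mul' z z' := by apply NN.ext <;> simp

instance N_solvable : Group.IsSolvable N := by
  apply Group.isSolvable_of_ker_le_range nBot nTop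
  intro n hn
  have h : (n.a, n.b, n.c) = ((0 : R), (0 : R), (0 : R)) := congrArg Multiplicative.toAdd hn
  refine ⟨Multiplicative.ofAdd (n.d, n.e, n.f), ?_⟩
  apply NN.ext
  · exact (congrArg Prod.fst h).symm
  · exact (congrArg (fun z => z.2.1) h).symm
  · exact (congrArg (fun z => z.2.2) h).symm
  · rfl
  · rfl
  · rfl

theorem semi_solvable {K' H : Type} [Group K'] [Group H] (φ : H →* MulAut K')
    [Group.IsSolvable K'] [Group.IsSolvable H] : Group.IsSolvable (K' ⋊[φ] H) :=
  Group.isSolvable_of_ker_le_range inl rightHom (by rw [range_inl_eq_ker_rightHom])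

instance Q_solvable : Group.IsSolvable Q := semi_solvable act

instance A_solvable : Group.IsSolvable A := semi_solvable χ

instance FF_solvable : Group.IsSolvable FF := semi_solvable κ

instance GG_solvable : Group.IsSolvable GG := inferInstance

end Pool.Agent.R794.Co
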