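import Pool.Agent.R794.Co.Ring

namespace Pool.Agent.R794.Co

open Polynomial

noncomputable def R : Subring K := Subring.closure (Set.range fun p : ℤ × ℤ => E p.1 p.2)

theorem E_mem (m n : ℤ) : E m n ∈ R := Subring.subset_closure ⟨(m, n), rfl⟩

noncomputable def Er (m n : ℤ) : R := ⟨E m n, E_mem m n⟩

theorem Er_mul (m n m' n' : ℤ) : Er m n * Er m' n' = Er (m + m') (n + n') :=
  Subtype.ext (E_mul _ _ _ _)

theorem Er_zero : Er 0 0 = 1 := Subtype.ext E_zero

theorem Er_rel (m n : ℤ) : Er m (n + 1) = Er m n + Er (m + 1) n := Subtype.ext (E_rel _ _)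

theorem Er_ne (m n : ℤ) : Er m n ≠ 0 := fun h => E_ne m n (congrArg Subtype.val h)

theorem add_self' (r : R) : r + r = 0 := Subtype.ext (add_self _)

theorem neg_eq (r : R) : -r = r := neg_eq_of_add_eq_zero_left (add_self' r)

theorem mem_span {r : K} (h : r ∈ R) :
    r ∈ AddSubgroup.closure (Set.range fun p : ℤ × ℤ => E p.1 p.2) := by
  rw [R, Subring.mem_closure_iff] at h
  have h1 : (Submonoid.closure (Set.range fun p : ℤ × ℤ => E p.1 p.2) : Set K) ⊆
      Set.range fun p : ℤ × ℤ => E p.1 p.2 := by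
    intro z hz
    induction hz using Submonoid.closure_induction with
    | mem z hz => exact hz
    | one => exact ⟨(0, 0), E_zero⟩
    | mul a b _ _ ha hb =>
      obtain ⟨p, rfl⟩ := ha
      obtain ⟨q, rfl⟩ := hb
      exact ⟨(p.1 + q.1, p.2 + q.2), (E_mul _ _ _ _).symm⟩
  exact AddSubgroup.closure_mono h1 h

theorem R_induction {p : R → Prop} (h0 : p 0) (hE : ∀ m n, p (Er m n))
    (hadd : ∀ a b, p a → p b → p (a + b)) (r : R) : p r := by
  obtain ⟨r, hr⟩ := r
  have h := mem_span hr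
  have key : ∀ s (hs : s ∈ AddSubgroup.closure (Set.range fun p : ℤ × ℤ => E p.1 p.2)),
      ∃ h : s ∈ R, p ⟨s, h⟩ := by
    intro s hs
    induction hs using AddSubgroup.closure_induction with
    | mem s hs =>
      obtain ⟨q, rfl⟩ := hs
      exact ⟨E_mem _ _, hE _ _⟩
    | zero => exact ⟨R.zero_mem, h0⟩
    | add a b _ _ ha hb =>
      obtain ⟨h1, h2⟩ := ha
      obtain ⟨h3, h4⟩ := hb
      exact ⟨R.add_mem h1 h3, hadd _ _ h2 h4⟩
    | neg a _ ha =>
      obtain ⟨h1, h2⟩ := ha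
      refine ⟨R.neg_mem h1, ?_⟩
      have : (⟨-a, R.neg_mem h1⟩ : R) = ⟨a, h1⟩ :=
        Subtype.ext (congrArg Subtype.val (neg_eq ⟨a, h1⟩))
      rw [this]; exact h2
  obtain ⟨_, h2⟩ := key r h
  exact h2

theorem lin_indep (c : ℤ →₀ ZMod 2)
    (h : Finsupp.linearCombination (ZMod 2) (fun i : ℤ => x ^ i) c = 0) : c = 0 := by
  classical
  obtain ⟨N, hN⟩ : ∃ N : ℕ, ∀ i ∈ c.support, 0 ≤ i + N := by
    refine ⟨∑ i ∈ c.support, i.natAbs, fun i hi => ?_⟩
    have : i.natAbs ≤ ∑ i ∈ c.support, i.natAbs :=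
      Finset.single_le_sum (f := fun i : ℤ => i.natAbs) (fun _ _ => Nat.zero_le _) hi
    omega
  have h1 : algebraMap (ZMod 2)[X] K (∑ i ∈ c.support, C (c i) * X ^ (i + N).toNat) = 0 := by
    rw [Finsupp.linearCombination_apply, Finsupp.sum] at h
    have h2 := congrArg (fun z => z * x ^ (N : ℤ)) h
    simp only [Finset.sum_mul, zero_mul] at h2
    rw [map_sum, ← h2]
    refine Finset.sum_congr rfl fun i hi => ?_
    rw [map_mul, map_pow, smul_mul_assoc, ← zpow_add₀ x_ne]
    have h3 : (i + (N : ℤ)) = (((i + N).toNat : ℕ) : ℤ) := by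
      have := hN i hi
      omega
    conv_rhs => rw [h3]
    rw [zpow_natCast, Algebra.smul_def]
    rfl
  have h4 : (∑ i ∈ c.support, C (c i) * X ^ (i + N).toNat : (ZMod 2)[X]) = 0 :=
    RatFunc.algebraMap_injective (ZMod 2) (by rw [h1, map_zero])
  ext j
  by_contra hj
  have hjs : j ∈ c.support := Finsupp.mem_support_iff.mpr hj
  have h5 := congrArg (fun q => Polynomial.coeff q (j + N).toNat) h4
  simp only [finsetSum_coeff, coeff_C_mul, coeff_X_pow, coeff_zero] at h5
  rw [Finset.sum_eq_single j] at h5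
  · simp at h5
    exact hj (by simpa using h5)
  · intro i hi hij
    have := hN i hi
    have := hN j hjs
    rw [if_neg, mul_zero]
    omega
  · intro h; exact absurd hjs h

/-- The additive group of `R` is generated by the `x^m y^n` subject to `2 = 0` and
`y = 1 + x`. -/
theorem exists_hom {A : Type*} [AddCommGroup A] (hA : ∀ a : A, a + a = 0) (g : ℤ → ℤ → A)
    (hg : ∀ m n, g m (n + 1) = g m n + g (m + 1) n) :
    ∃ φ : R →+ A, ∀ m n, φ (Er m n) = g m n := by
  classical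
  let _ : Module (ZMod 2) A := AddCommGroup.zmodModule (n := 2) (fun a => by rw [two_nsmul, hA])
  let P : (ℤ × ℤ →₀ ZMod 2) →ₗ[ZMod 2] K :=
    Finsupp.linearCombination (ZMod 2) (fun p => E p.1 p.2)
  let L : (ℤ × ℤ →₀ ZMod 2) →ₗ[ZMod 2] A :=
    Finsupp.linearCombination (ZMod 2) (fun p => g p.1 p.2)
  let Pn : ℤ → (ℤ →₀ ZMod 2) →ₗ[ZMod 2] K := fun n =>
    Finsupp.linearCombination (ZMod 2) (fun i => E i n)
  let Ln : ℤ → (ℤ →₀ ZMod 2) →ₗ[ZMod 2] A := fun n =>
    Finsupp.linearCombination (ZMod 2) (fun i => g i n)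
  have hrow : ∀ (k : ℕ) (m n : ℤ), ∃ c : ℤ →₀ ZMod 2, E m (n + k) = Pn n c ∧
      g m (n + k) = Ln n c := by
    intro k
    induction k with
    | zero =>
      intro m n
      refine ⟨Finsupp.single m 1, ?_, ?_⟩ <;> simp [Pn, Ln]
    | succ k ih =>
      intro m n
      obtain ⟨c, hc1, hc2⟩ := ih m n
      obtain ⟨d, hd1, hd2⟩ := ih (m + 1) n
      refine ⟨c + d, ?_, ?_⟩
      · rw [map_add, ← hc1, ← hd1]
        have : n + ((k + 1 : ℕ) : ℤ) = n + k + 1 := by push_cast; ring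
        rw [this, E_rel]
      · rw [map_add, ← hc2, ← hd2]
        have : n + ((k + 1 : ℕ) : ℤ) = n + k + 1 := by push_cast; ring
        rw [this, hg]
  have hall : ∀ w : ℤ × ℤ →₀ ZMod 2, ∃ n0 : ℤ, ∀ n ≤ n0, ∃ c : ℤ →₀ ZMod 2,
      P w = Pn n c ∧ L w = Ln n c := by
    intro w
    induction w using Finsupp.induction_linear with
    | zero => exact ⟨0, fun n _ => ⟨0, by simp, by simp⟩⟩
    | add u v hu hv =>
      obtain ⟨a, ha⟩ := hu
      obtain ⟨b, hb⟩ := hv
      refine ⟨min a b, fun n hn => ?_⟩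
      obtain ⟨c, hc1, hc2⟩ := ha n (hn.trans (min_le_left _ _))
      obtain ⟨d, hd1, hd2⟩ := hb n (hn.trans (min_le_right _ _))
      exact ⟨c + d, by rw [map_add, map_add, hc1, hd1], by rw [map_add, map_add, hc2, hd2]⟩
    | single p a =>
      refine ⟨p.2, fun n hn => ?_⟩
      obtain ⟨c, hc1, hc2⟩ := hrow (p.2 - n).toNat p.1 n
      have : n + ((p.2 - n).toNat : ℤ) = p.2 := by omega
      rw [this] at hc1 hc2
      refine ⟨a • c, ?_, ?_⟩
      · rw [map_smul, ← hc1]; simp [P]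
      · rw [map_smul, ← hc2]; simp [L]
  have hker : ∀ w, P w = 0 → L w = 0 := by
    intro w hw
    obtain ⟨n, hn⟩ := hall w
    obtain ⟨c, hc1, hc2⟩ := hn n le_rfl
    rw [hw] at hc1
    have h1 : Finsupp.linearCombination (ZMod 2) (fun i : ℤ => x ^ i) c = 0 := by
      have h2 : Pn n c = (Finsupp.linearCombination (ZMod 2) (fun i : ℤ => x ^ i) c) * y ^ n := by
        simp only [Pn, Finsupp.linearCombination_apply, Finsupp.sum, Finset.sum_mul]
        refine Finset.sum_congr rfl fun i _ => ?_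
        rw [smul_mul_assoc]; rfl
      rw [h2] at hc1
      rcases mul_eq_zero.mp hc1.symm with h | h
      · exact h
      · exact absurd h (zpow_ne_zero _ y_ne)
    rw [hc2, lin_indep c h1, map_zero]
  have hsurj : ∀ r : R, ∃ w, P w = r := by
    intro r
    refine R_induction (p := fun r : R => ∃ w, P w = r) ⟨0, by simp⟩ ?_ ?_ r
    · intro m n
      exact ⟨Finsupp.single (m, n) 1, by simp [P, Er]⟩
    · rintro a b ⟨u, hu⟩ ⟨v, hv⟩
      exact ⟨u + v, by rw [map_add, hu, hv]; rfl⟩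
  choose w hw using hsurj
  have hwd : ∀ r : R, ∀ v, P v = r → L (w r) = L v := by
    intro r v hv
    have : L (w r - v) = 0 := hker _ (by rw [map_sub, hw, hv, sub_self])
    rw [map_sub] at this
    exact sub_eq_zero.mp this
  refine ⟨⟨⟨fun r => L (w r), ?_⟩, ?_⟩, ?_⟩
  · rw [hwd 0 0 (by simp), map_zero]
  · intro a b
    simp only
    rw [hwd (a + b) (w a + w b) (by rw [map_add, hw, hw]; rfl), map_add]
  · intro m n
    show L (w (Er m n)) = g m n
    rw [hwd (Er m n) (Finsupp.single (m, n) 1) (by simp [P, Er])]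
    simp [L]

end Pool.Agent.R794.Co
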